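import Pool.Agent.Lib.MP_9fe581_an.AU.KerA
import Pool.Agent.Lib.MP_9fe581_an.AP.QD

/-! # AU, Dom: inequalities for the conditional measures pass to the absolutely continuous `R^p`-invariant measures

from `AP.den_real` (AP/QD.lean). -/

set_option autoImplicit false

open Finset MeasureTheory Filter Topology ProbabilityTheory
open scoped ComplexConjugate ENNReal

namespace Pool.Agent.Lib.MP_9fe581_an.AU

variable {Z : Type} [MeasurableSpace Z] [StandardBorelSpace Z] [Nonempty Z] {R : Z → Z} {ν : Measure Z} [IsProbabilityMeasure ν]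

theorem dom (hR : MeasurePreserving R ν ν) {p : ℕ} (hp : 0 < p) (hE : ∀ᵐ z ∂ν, Ergodic R^[p] (kk R ν z))
    {θ : Measure Z} [IsProbabilityMeasure θ] (hθ : MeasurePreserving R^[p] θ θ) (hac : θ ≪ ν) {G : Set Z}
    (hG : MeasurableSet[MeasurableSpace.invariants R] G) (h0 : θ Gᶜ = 0) {g : Z → ℝ} (hg : Measurable g)
    (hb : ∃ C, ∀ z, ‖g z‖ ≤ C) {c : ℝ} (h : ∀ z ∈ G, ∫ y, g y ∂kk R ν z ≤ c) : ∫ z, g z ∂θ ≤ c := by
  obtain ⟨C, hC⟩ := hb
  have h1 : ∫ z, g z ∂θ = ∫ z, ∫ y, g y ∂kk R ν z ∂θ := AP.den_real hR hE hac hθ hg (C := C) hC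
  have h2 : ∀ᵐ z ∂θ, ∫ y, g y ∂kk R ν z ≤ c := by
    have h3 : ∀ᵐ z ∂θ, z ∈ G := h0
    filter_upwards [h3] with z hz
    exact h z hz
  have hm : Measurable fun z => ∫ y, g y ∂kk R ν z :=
    (ker_meas hg ⟨C, hC⟩).mono (MeasurableSpace.invariants_le R) le_rfl
  have h4 : Integrable (fun z => ∫ y, g y ∂kk R ν z) θ := by
    refine Integrable.of_bound hm.aestronglyMeasurable C (Eventually.of_forall fun z => ?_)
    have := ker_prob R ν z
    have h5 := norm_integral_le_of_norm_le_const (μ := kk R ν z) (f := g) (C := C) (Eventually.of_forall hC)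
    simpa using h5
  rw [h1]
  calc ∫ z, ∫ y, g y ∂kk R ν z ∂θ ≤ ∫ _, c ∂θ := integral_mono_ae h4 (integrable_const c) h2
    _ = c := by simp

end Pool.Agent.Lib.MP_9fe581_an.AU
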