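import Pool.Agent.Lib.MP_9fe581_an.AU.KerA
import Pool.Agent.Lib.MP_e4ee3e_an.X03

/-! # AU, Ker: the conditional measures given the invariant sets are invariant and ergodic

from MP_e4ee3e_an/X02, X03 -/

set_option autoImplicit false

open Finset MeasureTheory Filter Topology ProbabilityTheory
open scoped ComplexConjugate ENNReal

namespace Pool.Agent.Lib.MP_9fe581_an.AU

variable {Z : Type} [TopologicalSpace Z] [CompactSpace Z] [TopologicalSpace.MetrizableSpace Z] [MeasurableSpace Z]
  [BorelSpace Z] [StandardBorelSpace Z] [Nonempty Z] {R : Z → Z} {ν : Measure Z} [IsProbabilityMeasure ν]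

theorem ker_inv (hRc : Continuous R) (hR : MeasurePreserving R ν ν) :
    ∀ᵐ z ∂ν, MeasurePreserving R (kk R ν z) (kk R ν z) :=
  MP_e4ee3e_an.condKernel_preserving hR

theorem ker_erg (hRc : Continuous R) (hR : MeasurePreserving R ν ν) : ∀ᵐ z ∂ν, Ergodic R (kk R ν z) :=
  MP_e4ee3e_an.condKernel_ergodic hR

end Pool.Agent.Lib.MP_9fe581_an.AU
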