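import Pool.Agent.Lib.MP_9fe581_an.AU.Conv
import Pool.Agent.Lib.MP_9fe581_an.AU.Dom
import Pool.Agent.Lib.MP_9fe581_an.AU.Ker

/-! # AU, Cell: the cells

PROOF. `conv` for every `i`: `g i k`, `c i k`.  `B i = {z : ∀ k, ∫ g i k d(kk z) <= c i k}`, `G i = B i \ ⋃ (l < i), B l`: measurable for the
invariant sets (ker_meas).  For almost every `z` the measure `a = kk z` is an ergodic probability measure (ker_erg), by `hcov` some `i` has
`Nb .. a`, i.e. `z ∈ B i`: so `ν (⋃ G i)ᶜ = 0`.  For `θ` with `θ (G i)ᶜ = 0`: by `dom` (hE from `htot`, applied to the ergodic measures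
`kk z`) `∫ g i k dθ <= c i k` for all `k`, so `Nb .. θ` by `conv`. -/

set_option autoImplicit false

open Finset MeasureTheory Filter Topology ProbabilityTheory
open scoped ComplexConjugate ENNReal

namespace Pool.Agent.Lib.MP_9fe581_an.AU

variable {Z Y : Type} [TopologicalSpace Z] [CompactSpace Z] [TopologicalSpace.MetrizableSpace Z] [MeasurableSpace Z]
  [BorelSpace Z] [TopologicalSpace Y] [CompactSpace Y] [TopologicalSpace.MetrizableSpace Y] [MeasurableSpace Y] [BorelSpace Y]

theorem cells {R : Z → Z} (hRc : Continuous R) {σ : Y → Y} (hσ : Continuous σ)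
    (htot : ∀ a : Measure Z, IsProbabilityMeasure a → Ergodic R a → ∀ n, 0 < n → Ergodic R^[n] a)
    (f : C(Z, ℂ)) (δ : ℝ) (m : ℕ → Measure Y) (F : ℕ → C(Y, ℂ))
    (hcov : ∀ a : Measure Z, IsProbabilityMeasure a → Ergodic R a → ∃ i, Nb R σ (m i) f (F i) δ a)
    {ν : Measure Z} [IsProbabilityMeasure ν] (hν : MeasurePreserving R ν ν) :
    ∃ G : ℕ → Set Z, (∀ i, MeasurableSet (G i)) ∧ (∀ i, R ⁻¹' G i = G i) ∧ (∀ i k, i ≠ k → Disjoint (G i) (G k)) ∧
      ν (⋃ i, G i)ᶜ = 0 ∧ ∀ i p, 0 < p → ∀ θ : Measure Z, IsProbabilityMeasure θ → MeasurePreserving R^[p] θ θ → θ ≪ ν →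
        θ (G i)ᶜ = 0 → Nb R σ (m i) f (F i) δ θ := by
  classical
  let _ : MetricSpace Z := TopologicalSpace.metrizableSpaceMetric Z
  have : Nonempty Z := nonempty_of_isProbabilityMeasure ν
  have : PolishSpace Z := inferInstance
  have : StandardBorelSpace Z := inferInstance
  choose g c hgc using fun i => conv hRc hσ (m i) f (F i) δ
  have hbd : ∀ i k, ∃ C, ∀ z, ‖g i k z‖ ≤ C := fun i k => ⟨‖g i k‖, fun z => (g i k).norm_coe_le_norm z⟩
  set B : ℕ → Set Z := fun i => {z | ∀ k, ∫ y, g i k y ∂kk R ν z ≤ c i k} with hB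
  have hBm : ∀ i, MeasurableSet[MeasurableSpace.invariants R] (B i) := by
    intro i
    have e : B i = ⋂ k, {z | ∫ y, g i k y ∂kk R ν z ≤ c i k} := by
      ext z
      simp [hB]
    rw [e]
    refine @MeasurableSet.iInter _ _ (MeasurableSpace.invariants R) _ _ fun k => ?_
    have h1 : Measurable[MeasurableSpace.invariants R] fun z => ∫ y, g i k y ∂kk R ν z :=
      ker_meas (g i k).continuous.measurable (hbd i k)
    exact h1 measurableSet_Iic
  have hGm : ∀ i, MeasurableSet[MeasurableSpace.invariants R] (disjointed B i) := fun i =>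
    @MeasurableSet.disjointed Z (MeasurableSpace.invariants R) B hBm i
  have herg := ker_erg (ν := ν) hRc hν
  refine ⟨disjointed B, fun i => (MeasurableSpace.measurableSet_invariants.1 (hGm i)).1,
    fun i => (MeasurableSpace.measurableSet_invariants.1 (hGm i)).2, fun i k hik => disjoint_disjointed B hik, ?_, ?_⟩
  · rw [iUnion_disjointed, measure_eq_zero_iff_ae_notMem]
    filter_upwards [herg] with z hz hz2
    obtain ⟨i, hi⟩ := hcov (kk R ν z) (ker_prob R ν z) hz
    apply hz2
    rw [Set.mem_iUnion]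
    exact ⟨i, fun k => (hgc i (kk R ν z) (ker_prob R ν z)).1 hi k⟩
  · intro i p hp θ hθp hθ hac h0
    refine (hgc i θ hθp).2 fun k => ?_
    have hE : ∀ᵐ z ∂ν, Ergodic R^[p] (kk R ν z) := by
      filter_upwards [herg] with z hz
      exact htot (kk R ν z) (ker_prob R ν z) hz p hp
    exact dom hν hp hE hθ hac (hGm i) h0 (g i k).continuous.measurable (hbd i k)
      fun z hz => disjointed_subset B i hz k

end Pool.Agent.Lib.MP_9fe581_an.AU
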