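import Pool.Agent.Lib.MP_9fe581_an.AU.Half

/-! # AU, Conv: the measures near a process are given by countably many inequalities

PROOF. Apply `half` to `A = {a : Nb R σ m f F δ a}`.  Closed: the set `K` of the probability measures `J` on `Z × Y` with
`Near R σ m f F δ (J.map Prod.fst) J` is closed (AP.qe_inv_closed, AP.qe_marg_closed in AP/QE.lean; `J ↦ ∫ ‖f - F‖² dJ` is continuous),
hence compact, and `A` is its image under the continuous map `J ↦ J.map Prod.fst` (ProbabilityMeasure.map continuous).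
Convex: `J = s • J_1 + t • J_2` (finite measures; if `s = 0` or so nothing changes, no division is needed). -/

set_option autoImplicit false

open Finset MeasureTheory Filter Topology ProbabilityTheory
open scoped ComplexConjugate ENNReal

namespace Pool.Agent.Lib.MP_9fe581_an.AU

variable {Z Y : Type} [TopologicalSpace Z] [CompactSpace Z] [TopologicalSpace.MetrizableSpace Z] [MeasurableSpace Z]
  [BorelSpace Z] [TopologicalSpace Y] [CompactSpace Y] [TopologicalSpace.MetrizableSpace Y] [MeasurableSpace Y] [BorelSpace Y]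

private theorem cv_int (Φ : C(Z × Y, ℝ)) (J : Measure (Z × Y)) [IsProbabilityMeasure J] :
    Integrable (fun w => Φ w) J := by
  let _ : MetricSpace Z := TopologicalSpace.metrizableSpaceMetric Z
  let _ : MetricSpace Y := TopologicalSpace.metrizableSpaceMetric Y
  exact (BoundedContinuousFunction.mkOfCompact Φ).integrable J

/-- the cost function -/
private noncomputable def cvC (f : C(Z, ℂ)) (F : C(Y, ℂ)) : C(Z × Y, ℝ) :=
  ⟨fun w => ‖f w.1 - F w.2‖ ^ 2, by fun_prop⟩

private theorem cv_main {R : Z → Z} (hR : Continuous R) {σ : Y → Y} (hσ : Continuous σ) (m : Measure Y)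
    [IsProbabilityMeasure m] (f : C(Z, ℂ)) (F : C(Y, ℂ)) (δ : ℝ) :
    IsClosed {a : ProbabilityMeasure Z | Nb R σ m f F δ (a : Measure Z)} := by
  let _ : MetricSpace Z := TopologicalSpace.metrizableSpaceMetric Z
  let _ : MetricSpace Y := TopologicalSpace.metrizableSpaceMetric Y
  have hS : Continuous (Prod.map R σ) := hR.prodMap hσ
  have h1 := AP.qe_inv_closed (Prod.map R σ) hS
  have h2 := AP.qe_marg_closed (Z := Z × Y) m Prod.snd continuous_snd
  have h3 : IsClosed {J : ProbabilityMeasure (Z × Y) | ∫ w, ‖f w.1 - F w.2‖ ^ 2 ∂(J : Measure (Z × Y)) ≤ δ} := by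
    have h4 : Continuous fun J : ProbabilityMeasure (Z × Y) => ∫ w, cvC f F w ∂(J : Measure (Z × Y)) := by
      rw [continuous_iff_continuousAt]
      intro μ
      have h := ProbabilityMeasure.tendsto_iff_forall_integral_tendsto.mp
        (tendsto_id (α := ProbabilityMeasure (Z × Y)) (x := 𝓝 μ))
      exact h (BoundedContinuousFunction.mkOfCompact (cvC f F))
    exact isClosed_le h4 continuous_const
  have h5 := ((h1.inter (h2.inter h3)).isCompact.image
    (ProbabilityMeasure.continuous_map (Ω := Z × Y) (Ω' := Z) continuous_fst)).isClosed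
  have h6 : {a : ProbabilityMeasure Z | Nb R σ m f F δ (a : Measure Z)} =
      (fun J : ProbabilityMeasure (Z × Y) => J.map continuous_fst.measurable.aemeasurable) ''
        ({J : ProbabilityMeasure (Z × Y) | MeasurePreserving (Prod.map R σ) (J : Measure (Z × Y)) (J : Measure (Z × Y))} ∩
          ({J : ProbabilityMeasure (Z × Y) | (J : Measure (Z × Y)).map Prod.snd = m} ∩
            {J : ProbabilityMeasure (Z × Y) | ∫ w, ‖f w.1 - F w.2‖ ^ 2 ∂(J : Measure (Z × Y)) ≤ δ})) := by
    ext a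
    constructor
    · rintro ⟨J, hJ⟩
      refine ⟨⟨J, hJ.prob⟩, ⟨hJ.inv, hJ.snd, hJ.near⟩, ?_⟩
      apply Subtype.ext
      exact hJ.fst
    · rintro ⟨J, ⟨g1, g2, g3⟩, g4⟩
      refine ⟨(J : Measure (Z × Y)), ⟨inferInstance, g1, ?_, g2, g3⟩⟩
      exact congrArg (fun b : ProbabilityMeasure Z => (b : Measure Z)) g4
  rw [h6]
  exact h5

private theorem cv_conv {R : Z → Z} {σ : Y → Y} (m : Measure Y) (f : C(Z, ℂ)) (F : C(Y, ℂ)) (δ : ℝ)
    {a b d : Measure Z} (ha : Nb R σ m f F δ a) (hb : Nb R σ m f F δ b) {s t : ℝ≥0∞} (hst : s + t = 1)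
    (hd : d = s • a + t • b) : Nb R σ m f F δ d := by
  obtain ⟨J, hJ⟩ := ha
  obtain ⟨J', hJ'⟩ := hb
  have := hJ.prob
  have := hJ'.prob
  have hs1 : s ≠ ∞ := by
    intro h; rw [h] at hst; simp at hst
  have ht1 : t ≠ ∞ := by
    intro h; rw [h] at hst; simp at hst
  refine ⟨s • J + t • J', ⟨?_, ?_, ?_, ?_, ?_⟩⟩
  · constructor
    rw [Measure.add_apply, Measure.smul_apply, Measure.smul_apply, measure_univ, measure_univ, smul_eq_mul,
      smul_eq_mul, mul_one, mul_one, hst]
  · refine ⟨hJ.inv.measurable, ?_⟩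
    rw [Measure.map_add _ _ hJ.inv.measurable, Measure.map_smul, Measure.map_smul, hJ.inv.map_eq, hJ'.inv.map_eq]
  · rw [Measure.map_add _ _ measurable_fst, Measure.map_smul, Measure.map_smul, hJ.fst, hJ'.fst, hd]
  · rw [Measure.map_add _ _ measurable_snd, Measure.map_smul, Measure.map_smul, hJ.snd, hJ'.snd, ← add_smul, hst,
      one_smul]
  · have h1 := hJ.near
    have h2 := hJ'.near
    have h3 : ∫ w, ‖f w.1 - F w.2‖ ^ 2 ∂(s • J + t • J') =
        s.toReal * ∫ w, ‖f w.1 - F w.2‖ ^ 2 ∂J + t.toReal * ∫ w, ‖f w.1 - F w.2‖ ^ 2 ∂J' := by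
      have i1 : Integrable (fun w : Z × Y => ‖f w.1 - F w.2‖ ^ 2) J := cv_int (cvC f F) J
      have i2 : Integrable (fun w : Z × Y => ‖f w.1 - F w.2‖ ^ 2) J' := cv_int (cvC f F) J'
      rw [integral_add_measure (i1.smul_measure hs1) (i2.smul_measure ht1), integral_smul_measure,
        integral_smul_measure, smul_eq_mul, smul_eq_mul]
    have h4 : s.toReal + t.toReal = 1 := by
      rw [← ENNReal.toReal_add hs1 ht1, hst, ENNReal.toReal_one]
    rw [h3]
    calc s.toReal * ∫ w, ‖f w.1 - F w.2‖ ^ 2 ∂J + t.toReal * ∫ w, ‖f w.1 - F w.2‖ ^ 2 ∂J'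
        ≤ s.toReal * δ + t.toReal * δ :=
          add_le_add (mul_le_mul_of_nonneg_left h1 ENNReal.toReal_nonneg)
            (mul_le_mul_of_nonneg_left h2 ENNReal.toReal_nonneg)
      _ = δ := by rw [← add_mul, h4, one_mul]

theorem conv {R : Z → Z} (hR : Continuous R) {σ : Y → Y} (hσ : Continuous σ) (m : Measure Y) (f : C(Z, ℂ)) (F : C(Y, ℂ))
    (δ : ℝ) : ∃ (g : ℕ → C(Z, ℝ)) (c : ℕ → ℝ), ∀ a : Measure Z, IsProbabilityMeasure a →
      (Nb R σ m f F δ a ↔ ∀ i, ∫ z, g i z ∂a ≤ c i) := by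
  have hcl : IsClosed {a : ProbabilityMeasure Z | Nb R σ m f F δ (a : Measure Z)} := by
    by_cases hm : IsProbabilityMeasure m
    · exact cv_main hR hσ m f F δ
    · have h0 : {a : ProbabilityMeasure Z | Nb R σ m f F δ (a : Measure Z)} = ∅ := by
        refine Set.eq_empty_of_forall_notMem fun a ha => hm ?_
        obtain ⟨J, hJ⟩ := ha
        have := hJ.prob
        rw [← hJ.snd]
        exact Measure.isProbabilityMeasure_map measurable_snd.aemeasurable
      rw [h0]
      exact isClosed_empty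
  obtain ⟨g, c, h⟩ := half _ hcl (fun a ha b hb s t hst d hd => cv_conv m f F δ ha hb hst hd)
  refine ⟨g, c, fun a ha => ?_⟩
  exact h ⟨a, ha⟩

end Pool.Agent.Lib.MP_9fe581_an.AU
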