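import Pool.Agent.Lib.MP_9fe581_an.AU.Glue2
import Pool.Agent.Lib.MP_9fe581_an.AP.QJ

/-! # AU, Pair: the bound for a pair of cells

Two invariant couplings `J1`, `J2` with close functions are glued along the joining `ρ` (`glue`); the projection to
`Y × Y` is a joining of `m1` and `m2`, for which `AP.qj_join` gives the bound `2 ε`, and the difference of the two
products is at most `‖f z - F1 y‖ + 2 ‖f z' - F2 y'‖`.  For a pair of cells this is applied to the normalized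
restriction of `ρ` to `G × G'`. -/

set_option autoImplicit false

open Finset MeasureTheory Filter Topology ProbabilityTheory
open scoped ComplexConjugate ENNReal

namespace Pool.Agent.Lib.MP_9fe581_an.AU

variable {Z Y : Type} [TopologicalSpace Z] [CompactSpace Z] [TopologicalSpace.MetrizableSpace Z] [MeasurableSpace Z]
  [BorelSpace Z] [TopologicalSpace Y] [CompactSpace Y] [TopologicalSpace.MetrizableSpace Y] [MeasurableSpace Y] [BorelSpace Y]

/-- continuous functions on a compact metrizable space are integrable for finite measures -/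
private theorem pr_int {X E : Type} [TopologicalSpace X] [CompactSpace X] [TopologicalSpace.MetrizableSpace X]
    [MeasurableSpace X] [BorelSpace X] [NormedAddCommGroup E] [SecondCountableTopology E] [MeasurableSpace E]
    [BorelSpace E] (G : C(X, E)) (lam : Measure X) [IsFiniteMeasure lam] : Integrable (fun w => G w) lam :=
  (BoundedContinuousFunction.mkOfCompact G).integrable lam

/-- the first moment is at most the root of the second -/
private theorem pr_sqrt {X : Type} [TopologicalSpace X] [CompactSpace X] [TopologicalSpace.MetrizableSpace X]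
    [MeasurableSpace X] [BorelSpace X] (g : C(X, ℂ)) (lam : Measure X) [IsProbabilityMeasure lam] {δ : ℝ}
    (h : ∫ w, ‖g w‖ ^ 2 ∂lam ≤ δ) : ∫ w, ‖g w‖ ∂lam ≤ Real.sqrt δ := by
  set t : ℝ := ∫ w, ‖g w‖ ∂lam with ht
  have i1 : Integrable (fun w => ‖g w‖) lam :=
    pr_int (⟨fun w => ‖g w‖, continuous_norm.comp g.continuous⟩ : C(X, ℝ)) lam
  have i2 : Integrable (fun w => ‖g w‖ ^ 2) lam :=
    pr_int (⟨fun w => ‖g w‖ ^ 2, (continuous_norm.comp g.continuous).pow 2⟩ : C(X, ℝ)) lam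
  have h1 : ∫ w, (‖g w‖ - t) ^ 2 ∂lam = ∫ w, ‖g w‖ ^ 2 ∂lam - t ^ 2 := by
    have h2 : ∀ w, (‖g w‖ - t) ^ 2 = ‖g w‖ ^ 2 - 2 * t * ‖g w‖ + t ^ 2 := fun w => by ring
    have i3 : Integrable (fun w => 2 * t * ‖g w‖) lam := i1.const_mul _
    have i4 : Integrable (fun w => ‖g w‖ ^ 2 - 2 * t * ‖g w‖) lam := i2.sub i3
    simp only [h2]
    rw [integral_add i4 (integrable_const _), integral_sub i2 i3, integral_const_mul, ← ht, integral_const]
    simp only [probReal_univ, smul_eq_mul]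
    ring
  have h3 : 0 ≤ ∫ w, (‖g w‖ - t) ^ 2 ∂lam := integral_nonneg fun w => sq_nonneg _
  rw [h1] at h3
  exact Real.le_sqrt_of_sq_le (by linarith)

theorem pair {R : Z → Z} (hRc : Continuous R) {σ : Y → Y} (hσ : Continuous σ) {f : C(Z, ℂ)} (hf : ∀ z, ‖f z‖ ≤ 1)
    {F1 F2 : C(Y, ℂ)} (hF1 : ∀ y, ‖F1 y‖ ≤ 2) {m1 m2 : Measure Y} [IsProbabilityMeasure m1] [IsProbabilityMeasure m2]
    {p q : ℕ} (e1 : Ergodic σ^[p] m1) (e2 : Ergodic σ^[q] m2) {δ ε : ℝ} (hδ : 0 ≤ δ)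
    (hSJ : ∀ lam : Measure (Y × Y), IsProbabilityMeasure lam → Ergodic (Prod.map σ^[p] σ^[q]) lam →
      lam.map Prod.fst = m1 → lam.map Prod.snd = m2 → ‖∫ w, F1 w.1 * conj (F2 w.2) ∂lam‖ ≤ ε)
    (ρ : Measure (Z × Z)) [IsProbabilityMeasure ρ] (hρ : MeasurePreserving (Prod.map R^[p] R^[q]) ρ ρ)
    (h1 : Nb R σ m1 f F1 δ (ρ.map Prod.fst)) (h2 : Nb R σ m2 f F2 δ (ρ.map Prod.snd)) :
    ‖∫ w, f w.1 * conj (f w.2) ∂ρ‖ ≤ 2 * ε + 3 * Real.sqrt δ := by
  obtain ⟨J1, p1, i1, a1, b1, n1⟩ := h1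
  obtain ⟨J2, p2, i2, a2, b2, n2⟩ := h2
  have i1' : MeasurePreserving (Prod.map R^[p] σ^[p]) J1 J1 := by
    have h3 := i1.iterate p
    rwa [Prod.map_iterate] at h3
  have i2' : MeasurePreserving (Prod.map R^[q] σ^[q]) J2 J2 := by
    have h3 := i2.iterate q
    rwa [Prod.map_iterate] at h3
  obtain ⟨Λ, l1, l2, l3, l4, l5⟩ := glue (hRc.iterate p) (hRc.iterate q) (hσ.iterate p) (hσ.iterate q) ρ hρ J1 i1' J2
    i2' a1 a2
  have mA : Measurable fun w : (Z × Z) × (Y × Y) => (w.1.1, w.2.1) := by fun_prop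
  have mB : Measurable fun w : (Z × Z) × (Y × Y) => (w.1.2, w.2.2) := by fun_prop
  have κp : IsProbabilityMeasure (Λ.map Prod.snd) := Measure.isProbabilityMeasure_map measurable_snd.aemeasurable
  have κi : MeasurePreserving (Prod.map σ^[p] σ^[q]) (Λ.map Prod.snd) (Λ.map Prod.snd) := by
    have hm : Measurable (Prod.map σ^[p] σ^[q]) :=
      ((hσ.iterate p).prodMap (hσ.iterate q)).measurable
    refine ⟨hm, ?_⟩
    rw [Measure.map_map hm measurable_snd]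
    have e : Prod.map σ^[p] σ^[q] ∘ Prod.snd =
      Prod.snd ∘ (Prod.map (Prod.map R^[p] R^[q]) (Prod.map σ^[p] σ^[q])) := rfl
    rw [e, ← Measure.map_map measurable_snd l2.measurable, l2.map_eq]
  have κ1 : (Λ.map Prod.snd).map Prod.fst = m1 := by
    rw [Measure.map_map measurable_fst measurable_snd, ← b1, ← l4, Measure.map_map measurable_snd mA]
    rfl
  have κ2 : (Λ.map Prod.snd).map Prod.snd = m2 := by
    rw [Measure.map_map measurable_snd measurable_snd, ← b2, ← l5, Measure.map_map measurable_snd mB]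
    rfl
  have key := AP.qj_join (hσ.iterate p) (hσ.iterate q) e1 e2 ⟨fun w => F1 w.1 * conj (F2 w.2), by fun_prop⟩ ε
    (fun lam q1 q2 q3 q4 => hSJ lam q1 q2 q3 q4) (Λ.map Prod.snd) κp κi κ1 κ2
  have key' : ‖∫ w : (Z × Z) × (Y × Y), F1 w.2.1 * conj (F2 w.2.2) ∂Λ‖ ≤ 2 * ε := by
    have h3 : ∫ w, F1 w.1 * conj (F2 w.2) ∂(Λ.map Prod.snd) =
        ∫ w : (Z × Z) × (Y × Y), F1 w.2.1 * conj (F2 w.2.2) ∂Λ :=
      integral_map measurable_snd.aemeasurable
        (show Continuous fun w : Y × Y => F1 w.1 * conj (F2 w.2) by fun_prop).aestronglyMeasurable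
    rw [← h3]
    exact key
  have hρΛ : ∫ w, f w.1 * conj (f w.2) ∂ρ = ∫ w : (Z × Z) × (Y × Y), f w.1.1 * conj (f w.1.2) ∂Λ := by
    rw [← l3]
    exact integral_map measurable_fst.aemeasurable
      (show Continuous fun w : Z × Z => f w.1 * conj (f w.2) by fun_prop).aestronglyMeasurable
  have j1 : ∫ w : (Z × Z) × (Y × Y), ‖f w.1.1 - F1 w.2.1‖ ∂Λ ≤ Real.sqrt δ := by
    have h3 : ∫ w : Z × Y, ‖f w.1 - F1 w.2‖ ∂J1 = ∫ w : (Z × Z) × (Y × Y), ‖f w.1.1 - F1 w.2.1‖ ∂Λ := by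
      rw [← l4]
      exact integral_map mA.aemeasurable
        (show Continuous fun w : Z × Y => ‖f w.1 - F1 w.2‖ by fun_prop).aestronglyMeasurable
    rw [← h3]
    exact pr_sqrt (⟨fun w => f w.1 - F1 w.2, by fun_prop⟩ : C(Z × Y, ℂ)) J1 n1
  have j2 : ∫ w : (Z × Z) × (Y × Y), ‖f w.1.2 - F2 w.2.2‖ ∂Λ ≤ Real.sqrt δ := by
    have h3 : ∫ w : Z × Y, ‖f w.1 - F2 w.2‖ ∂J2 = ∫ w : (Z × Z) × (Y × Y), ‖f w.1.2 - F2 w.2.2‖ ∂Λ := by
      rw [← l5]
      exact integral_map mB.aemeasurable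
        (show Continuous fun w : Z × Y => ‖f w.1 - F2 w.2‖ by fun_prop).aestronglyMeasurable
    rw [← h3]
    exact pr_sqrt (⟨fun w => f w.1 - F2 w.2, by fun_prop⟩ : C(Z × Y, ℂ)) J2 n2
  have c1 : Integrable (fun w : (Z × Z) × (Y × Y) => f w.1.1 * conj (f w.1.2)) Λ :=
    pr_int (⟨fun w => f w.1.1 * conj (f w.1.2), by fun_prop⟩ : C((Z × Z) × (Y × Y), ℂ)) Λ
  have c2 : Integrable (fun w : (Z × Z) × (Y × Y) => F1 w.2.1 * conj (F2 w.2.2)) Λ :=
    pr_int (⟨fun w => F1 w.2.1 * conj (F2 w.2.2), by fun_prop⟩ : C((Z × Z) × (Y × Y), ℂ)) Λ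
  have c3 : Integrable (fun w : (Z × Z) × (Y × Y) => ‖f w.1.1 - F1 w.2.1‖) Λ :=
    pr_int (⟨fun w => ‖f w.1.1 - F1 w.2.1‖, by fun_prop⟩ : C((Z × Z) × (Y × Y), ℝ)) Λ
  have c4 : Integrable (fun w : (Z × Z) × (Y × Y) => ‖f w.1.2 - F2 w.2.2‖) Λ :=
    pr_int (⟨fun w => ‖f w.1.2 - F2 w.2.2‖, by fun_prop⟩ : C((Z × Z) × (Y × Y), ℝ)) Λ
  have hdiff : ‖∫ w : (Z × Z) × (Y × Y), f w.1.1 * conj (f w.1.2) ∂Λ -
      ∫ w : (Z × Z) × (Y × Y), F1 w.2.1 * conj (F2 w.2.2) ∂Λ‖ ≤ 3 * Real.sqrt δ := by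
    rw [← integral_sub c1 c2]
    refine (norm_integral_le_integral_norm _).trans ?_
    have h3 : ∫ w : (Z × Z) × (Y × Y), ‖f w.1.1 * conj (f w.1.2) - F1 w.2.1 * conj (F2 w.2.2)‖ ∂Λ ≤
        ∫ w : (Z × Z) × (Y × Y), (‖f w.1.1 - F1 w.2.1‖ + 2 * ‖f w.1.2 - F2 w.2.2‖) ∂Λ := by
      refine integral_mono (c1.sub c2).norm (c3.add (c4.const_mul 2)) fun w => ?_
      have h4 : f w.1.1 * conj (f w.1.2) - F1 w.2.1 * conj (F2 w.2.2) =
          (f w.1.1 - F1 w.2.1) * conj (f w.1.2) + F1 w.2.1 * conj (f w.1.2 - F2 w.2.2) := by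
        rw [map_sub]
        ring
      show ‖f w.1.1 * conj (f w.1.2) - F1 w.2.1 * conj (F2 w.2.2)‖ ≤ _
      rw [h4]
      refine (norm_add_le _ _).trans (add_le_add ?_ ?_)
      · rw [norm_mul, RCLike.norm_conj]
        exact mul_le_of_le_one_right (norm_nonneg _) (hf _)
      · rw [norm_mul, RCLike.norm_conj]
        exact mul_le_mul_of_nonneg_right (hF1 _) (norm_nonneg _)
    refine h3.trans ?_
    rw [integral_add c3 (c4.const_mul 2), integral_const_mul]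
    linarith
  rw [hρΛ]
  have h5 := norm_sub_norm_le (∫ w : (Z × Z) × (Y × Y), f w.1.1 * conj (f w.1.2) ∂Λ)
    (∫ w : (Z × Z) × (Y × Y), F1 w.2.1 * conj (F2 w.2.2) ∂Λ)
  linarith

theorem cell_pair {R : Z → Z} (hRc : Continuous R) {σ : Y → Y} (hσ : Continuous σ) {f : C(Z, ℂ)} (hf : ∀ z, ‖f z‖ ≤ 1)
    {F1 F2 : C(Y, ℂ)} (hF1 : ∀ y, ‖F1 y‖ ≤ 2) {m1 m2 : Measure Y} [IsProbabilityMeasure m1] [IsProbabilityMeasure m2]
    {p q : ℕ} (hp : 0 < p) (hq : 0 < q) (e1 : Ergodic σ^[p] m1) (e2 : Ergodic σ^[q] m2) {δ ε : ℝ} (hδ : 0 ≤ δ) (hε : 0 ≤ ε)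
    (hSJ : ∀ lam : Measure (Y × Y), IsProbabilityMeasure lam → Ergodic (Prod.map σ^[p] σ^[q]) lam →
      lam.map Prod.fst = m1 → lam.map Prod.snd = m2 → ‖∫ w, F1 w.1 * conj (F2 w.2) ∂lam‖ ≤ ε)
    {ν : Measure Z} [IsProbabilityMeasure ν] {G G' : Set Z} (hGm : MeasurableSet G) (hGm' : MeasurableSet G')
    (hGi : R ⁻¹' G = G) (hGi' : R ⁻¹' G' = G')
    (hG : ∀ θ : Measure Z, IsProbabilityMeasure θ → MeasurePreserving R^[p] θ θ → θ ≪ ν → θ Gᶜ = 0 → Nb R σ m1 f F1 δ θ)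
    (hG' : ∀ θ : Measure Z, IsProbabilityMeasure θ → MeasurePreserving R^[q] θ θ → θ ≪ ν → θ G'ᶜ = 0 →
      Nb R σ m2 f F2 δ θ)
    (ρ : Measure (Z × Z)) [IsProbabilityMeasure ρ] (hρ : MeasurePreserving (Prod.map R^[p] R^[q]) ρ ρ)
    (h1 : ρ.map Prod.fst ≪ ν) (h2 : ρ.map Prod.snd ≪ ν) :
    ‖∫ w in G ×ˢ G', f w.1 * conj (f w.2) ∂ρ‖ ≤ (2 * ε + 3 * Real.sqrt δ) * (ρ (G ×ˢ G')).toReal := by
  by_cases h0 : ρ (G ×ˢ G') = 0
  · have h3 : ρ.restrict (G ×ˢ G') = 0 := Measure.restrict_eq_zero.2 h0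
    rw [h3, integral_zero_measure, norm_zero, h0]
    simp
  set w0 : ℝ≥0∞ := ρ (G ×ˢ G') with hw0
  have hwt : w0 ≠ ∞ := measure_ne_top _ _
  have hmS : MeasurableSet (G ×ˢ G') := hGm.prod hGm'
  have hit : ∀ n : ℕ, ∀ A : Set Z, R ⁻¹' A = A → R^[n] ⁻¹' A = A := by
    intro n A hA
    induction n with
    | zero => rfl
    | succ n ih => rw [Function.iterate_succ, Set.preimage_comp, ih, hA]
  have hRm : ∀ n : ℕ, Measurable R^[n] := fun n => (hRc.iterate n).measurable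
  set ρ' : Measure (Z × Z) := ρ.restrict (G ×ˢ G') with hρ'
  set lam : Measure (Z × Z) := w0⁻¹ • ρ' with hlam
  have hc0 : w0⁻¹ ≠ ∞ := ENNReal.inv_ne_top.2 h0
  have l1 : IsProbabilityMeasure lam := by
    refine ⟨?_⟩
    rw [hlam, Measure.smul_apply, hρ', Measure.restrict_apply_univ, smul_eq_mul]
    exact ENNReal.inv_mul_cancel h0 hwt
  have hpre : MeasurePreserving (Prod.map R^[p] R^[q]) ρ' ρ' := by
    have g1 := hρ.restrict_preimage hmS
    have g2 : Prod.map R^[p] R^[q] ⁻¹' (G ×ˢ G') = G ×ˢ G' := by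
      have g3 : Prod.map R^[p] R^[q] ⁻¹' (G ×ˢ G') = (R^[p] ⁻¹' G) ×ˢ (R^[q] ⁻¹' G') := rfl
      rw [g3, hit p G hGi, hit q G' hGi']
    rw [g2] at g1
    exact g1
  have l2 : MeasurePreserving (Prod.map R^[p] R^[q]) lam lam := by
    refine ⟨hpre.measurable, ?_⟩
    rw [hlam, Measure.map_smul, hpre.map_eq]
  have hle : ρ' ≤ ρ := Measure.restrict_le_self
  have hsm : lam ≪ ρ' := by
    rw [hlam]
    exact Measure.smul_absolutelyContinuous
  have hac : lam ≪ ρ := hsm.trans (Measure.absolutelyContinuous_of_le hle)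
  have n1 : Nb R σ m1 f F1 δ (lam.map Prod.fst) := by
    refine hG _ (Measure.isProbabilityMeasure_map measurable_fst.aemeasurable) ?_
      ((hac.map measurable_fst).trans h1) ?_
    · refine ⟨hRm p, ?_⟩
      rw [Measure.map_map (hRm p) measurable_fst]
      have e : R^[p] ∘ Prod.fst = Prod.fst ∘ Prod.map R^[p] R^[q] := rfl
      rw [e, ← Measure.map_map measurable_fst l2.measurable, l2.map_eq]
    · rw [Measure.map_apply measurable_fst hGm.compl]
      refine hsm ?_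
      rw [hρ', Measure.restrict_apply (measurable_fst hGm.compl)]
      have e : (Prod.fst ⁻¹' Gᶜ ∩ G ×ˢ G' : Set (Z × Z)) = ∅ := by
        ext z
        constructor
        · rintro ⟨hz1, hz2, -⟩
          exact hz1 hz2
        · intro hz
          exact absurd hz (Set.notMem_empty z)
      rw [e, measure_empty]
  have n2 : Nb R σ m2 f F2 δ (lam.map Prod.snd) := by
    refine hG' _ (Measure.isProbabilityMeasure_map measurable_snd.aemeasurable) ?_
      ((hac.map measurable_snd).trans h2) ?_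
    · refine ⟨hRm q, ?_⟩
      rw [Measure.map_map (hRm q) measurable_snd]
      have e : R^[q] ∘ Prod.snd = Prod.snd ∘ Prod.map R^[p] R^[q] := rfl
      rw [e, ← Measure.map_map measurable_snd l2.measurable, l2.map_eq]
    · rw [Measure.map_apply measurable_snd hGm'.compl]
      refine hsm ?_
      rw [hρ', Measure.restrict_apply (measurable_snd hGm'.compl)]
      have e : (Prod.snd ⁻¹' G'ᶜ ∩ G ×ˢ G' : Set (Z × Z)) = ∅ := by
        ext z
        constructor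
        · rintro ⟨hz1, -, hz2⟩
          exact hz1 hz2
        · intro hz
          exact absurd hz (Set.notMem_empty z)
      rw [e, measure_empty]
  have key := pair hRc hσ hf hF1 e1 e2 hδ hSJ lam l2 n1 n2
  have e1' : ∫ z, f z.1 * conj (f z.2) ∂lam = (w0⁻¹).toReal • ∫ z, f z.1 * conj (f z.2) ∂ρ' := by
    rw [hlam, integral_smul_measure]
  rw [e1', norm_smul, Real.norm_of_nonneg ENNReal.toReal_nonneg, ENNReal.toReal_inv] at key
  have hwp : 0 < w0.toReal := ENNReal.toReal_pos h0 hwt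
  rw [inv_mul_le_iff₀ hwp] at key
  rw [mul_comm]
  exact key

end Pool.Agent.Lib.MP_9fe581_an.AU
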