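import Pool.Agent.Lib.MP_9fe581_an.AP.QG
import Pool.Agent.Lib.MP_9fe581_an.HD.Final

/-! # AU, Unif: from quasi-generic sequences to all points

PROOF. If the claim fails there are `u`, `ε > 0` and for every `i` some `N_i >= i`, `z_i` with `‖∑ (n <= N_i) u(n) f(R^n z_i)‖ > ε N_i`; by
compactness and metrizability of the space of probability measures (or a diagonal argument for a dense sequence of `C(Z, ℝ)`) pass to a
subsequence for which the empirical measures `(1/N_i) ∑ (n <= N_i) δ (R^n z_i)` converge to `ν`: `AP.QGen R ν z N`; `ν` is `R`-invariant (compare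
AP.qg_lim in AP/QG.lean, FT/Emp.lean, AH/, HD/ in this library). -/

set_option autoImplicit false

open Finset MeasureTheory Filter Topology ProbabilityTheory
open scoped ComplexConjugate ENNReal

namespace Pool.Agent.Lib.MP_9fe581_an.AU

variable {Z : Type} [TopologicalSpace Z] [CompactSpace Z] [TopologicalSpace.MetrizableSpace Z] [MeasurableSpace Z] [BorelSpace Z]

theorem of_loc {R : Z → Z} (hRc : Continuous R) (f : C(Z, ℂ))
    (h : ∀ ν : Measure Z, IsProbabilityMeasure ν → MeasurePreserving R ν ν → ∀ (z : ℕ → Z) (N : ℕ → ℕ), Tendsto N atTop atTop →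
      AP.QGen R ν z N → ∀ u : ℕ → ℂ, HD.BMult u → ∀ ε : ℝ, 0 < ε →
        ∀ᶠ i in atTop, ‖∑ n ∈ Icc 1 (N i), u n * f (R^[n] (z i))‖ ≤ ε * N i) : HD.UnifOrth R f := by
  let _ : MetricSpace Z := TopologicalSpace.metrizableSpaceMetric Z
  intro u hu ε hε
  by_contra hcon
  push Not at hcon
  choose N hN z hz using hcon
  have hNt : Tendsto N atTop atTop := tendsto_atTop_mono hN tendsto_id
  obtain ⟨μ, hμ⟩ : ∃ μ : ℕ → ProbabilityMeasure Z, ∀ i, (μ i : Measure Z) = FT.emp R (z i) (N i - 1) :=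
    ⟨fun i => ⟨FT.emp R (z i) (N i - 1), FT.emp_prob R (z i) (N i - 1)⟩, fun _ => rfl⟩
  obtain ⟨ρ, -, φ, hφ, hρ⟩ := isCompact_univ.tendsto_subseq (x := μ) (fun _ => Set.mem_univ _)
  have hNφ : Tendsto (fun k => N (φ k)) atTop atTop := hNt.comp hφ.tendsto_atTop
  have hint := ProbabilityMeasure.tendsto_iff_forall_integral_tendsto.mp hρ
  have hq : AP.QGen R (ρ : Measure Z) (fun k => z (φ k)) (fun k => N (φ k)) := by
    intro g
    have t : Tendsto (fun k => ∫ y, g y ∂((μ ∘ φ) k : Measure Z)) atTop (𝓝 (∫ y, g y ∂(ρ : Measure Z))) :=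
      hint (BoundedContinuousFunction.mkOfCompact g)
    refine t.congr' ?_
    filter_upwards [hNφ.eventually_ge_atTop 1] with k hk
    rw [Function.comp_apply, hμ]
    exact AP.qg_avg R g (z (φ k)) (N (φ k)) hk
  have hU : ((Ultrafilter.of (atTop : Filter ℕ) : Ultrafilter ℕ) : Filter ℕ) ≤ atTop := Ultrafilter.of_le _
  have hN1 : Tendsto (fun k => N (φ k) - 1) ((Ultrafilter.of (atTop : Filter ℕ) : Ultrafilter ℕ) : Filter ℕ) atTop :=
    ((tendsto_sub_atTop_nat 1).comp hNφ).mono_left hU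
  obtain ⟨ρ', hp', hinv, hlim⟩ := AP.qg_lim R hRc (fun k => z (φ k)) (fun k => N (φ k) - 1) (Ultrafilter.of atTop) hN1
  have hee : (ρ : Measure Z) = ρ' := by
    refine ext_of_forall_integral_eq_of_IsFiniteMeasure fun g => ?_
    have t1 := (hint g).mono_left hU
    have t2 := hlim g.toContinuousMap
    refine tendsto_nhds_unique t1 (t2.congr fun k => ?_)
    rw [Function.comp_apply, hμ]
    rfl
  have hfin := h (ρ : Measure Z) inferInstance (by rw [hee]; exact hinv) (fun k => z (φ k)) (fun k => N (φ k)) hNφ hq u hu ε hε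
  obtain ⟨k, hk⟩ := hfin.exists
  exact absurd hk (not_le.2 (hz (φ k)))

end Pool.Agent.Lib.MP_9fe581_an.AU
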