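import Pool.Agent.Lib.MP_9fe581_an.AU.Fam
import Pool.Agent.Lib.MP_9fe581_an.AU.Cell
import Pool.Agent.Lib.MP_9fe581_an.AU.Pair
import Pool.Agent.Lib.MP_9fe581_an.AU.Unif
import Pool.Agent.Lib.MP_9fe581_an.AP.QC6

/-! # AU, Core: the theorem for factors of systems on one compact space

PROOF of `loc`. `AP.assemble` (AP/QC6.lean) at `ν` with `β = (ε/2/4)²/4`: take `δ > 0` with `3 sqrt δ <= β/2`; `fam`; `cells` (`hcov` from `hfac`, `hf0`;
`htot`: a factor of a totally ergodic system is totally ergodic, `fac_erg`); `hcell i k` from `cell_pair` with `2 ε' <= β/2`, `hSJ` for the pair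
`F i`, `F k` (mean zero) gives `q0`.
`ι` is nonempty because `ν` has ergodic conditional measures (Ker) or because `Z` has an ergodic measure (AP.exists_ergodic_face).
PROOF of `core`. `of_loc` and `loc` for `c f`, `c > 0` small. -/

set_option autoImplicit false

open Finset MeasureTheory Filter Topology ProbabilityTheory
open scoped ComplexConjugate ENNReal

namespace Pool.Agent.Lib.MP_9fe581_an.AU

variable {Z Y : Type} [TopologicalSpace Z] [CompactSpace Z] [TopologicalSpace.MetrizableSpace Z] [MeasurableSpace Z]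
  [BorelSpace Z] [TopologicalSpace Y] [CompactSpace Y] [TopologicalSpace.MetrizableSpace Y] [MeasurableSpace Y] [BorelSpace Y]

private theorem core_iter {X : Type} [MeasurableSpace X] {S : X → X} {μ : Measure X} {R : Z → Z} {φ : X → Z}
    (hS : MeasurePreserving S μ μ) (h : ∀ᵐ x ∂μ, φ (S x) = R (φ x)) (n : ℕ) :
    ∀ᵐ x ∂μ, φ (S^[n] x) = R^[n] (φ x) := by
  induction n with
  | zero => exact Filter.Eventually.of_forall fun x => rfl
  | succ n ih =>
    have h1 : ∀ᵐ x ∂μ, φ (S^[n] (S x)) = R^[n] (φ (S x)) := hS.quasiMeasurePreserving.ae ih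
    filter_upwards [h, h1] with x e1 e2
    rw [Function.iterate_succ_apply, Function.iterate_succ_apply, e2, e1]

/-- a factor of a totally ergodic system is totally ergodic -/
theorem fac_erg {X : Type} [MeasurableSpace X] {S : X → X} {μ : Measure X} {R : Z → Z} {a : Measure Z} (hS : MeasurePreserving S μ μ)
    (h : IsFac S μ R a) (hR : Measurable R) {n : ℕ} (he : Ergodic S^[n] μ) (ha : MeasurePreserving R a a) : Ergodic R^[n] a := by
  obtain ⟨φ, hφ, hc⟩ := h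
  refine ⟨ha.iterate n, ⟨fun s hs hinv => ?_⟩⟩
  have h1 := core_iter hS hc n
  have h2 : S^[n] ⁻¹' (φ ⁻¹' s) =ᵐ[μ] φ ⁻¹' s := by
    filter_upwards [h1] with x hx
    have e : (φ (S^[n] x) ∈ s) = (φ x ∈ s) := by
      rw [hx]
      have : (φ x ∈ R^[n] ⁻¹' s) = (φ x ∈ s) := by rw [hinv]
      exact this
    exact e
  have h3 : EventuallyConst (φ ⁻¹' s) (ae μ) :=
    he.quasiErgodic.aeconst_set₀ (hφ.measurable hs).nullMeasurableSet h2
  rw [eventuallyConst_set] at h3 ⊢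
  have h4 : ∀ t : Set Z, MeasurableSet t → (∀ᵐ x ∂μ, φ x ∈ t) → ∀ᵐ x ∂a, x ∈ t := by
    intro t ht hx
    rw [← hφ.map_eq]
    exact (ae_map_iff hφ.measurable.aemeasurable ht).mpr hx
  rcases h3 with h3 | h3
  · exact Or.inl (h4 s hs h3)
  · exact Or.inr (h4 sᶜ hs.compl h3)

theorem loc {ι : Type} [Countable ι] {R : Z → Z} (hRc : Continuous R) {σ : Y → Y} (hσ : Continuous σ)
    (m : ι → Measure Y) (hm : ∀ j, IsProbabilityMeasure (m j)) (hE : ∀ j n, 0 < n → Ergodic σ^[n] (m j))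
    (hSJ : ∀ j k, ∀ F F' : C(Y, ℂ), ∫ y, F y ∂m j = 0 → ∫ y, F' y ∂m k = 0 → AQ.SJ2 (m j) σ (m k) σ F F')
    (hfac : ∀ a : Measure Z, IsProbabilityMeasure a → Ergodic R a → ∃ j, IsFac σ (m j) R a)
    (f : C(Z, ℂ)) (hf : ∀ z, ‖f z‖ ≤ 1) (hf0 : ∀ a : Measure Z, IsProbabilityMeasure a → Ergodic R a → ∫ z, f z ∂a = 0)
    {ν : Measure Z} [IsProbabilityMeasure ν] (hν : MeasurePreserving R ν ν) {z : ℕ → Z} {N : ℕ → ℕ}
    (hN : Tendsto N atTop atTop) (hq : AP.QGen R ν z N) {u : ℕ → ℂ} (hu : HD.BMult u) {ε : ℝ} (hε : 0 < ε) :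
    ∀ᶠ i in atTop, ‖∑ n ∈ Icc 1 (N i), u n * f (R^[n] (z i))‖ ≤ ε * N i := by
  obtain ⟨lam, -, hlam, -⟩ := AP.exists_ergodic_face R
    {μ : ProbabilityMeasure Z | MeasurePreserving R (μ : Measure Z) (μ : Measure Z)} (AP.qe_inv_closed R hRc)
    (fun μ h => h) (fun μ _ μ₁ μ₂ h1 h2 _ _ _ _ _ _ => ⟨h1, h2⟩) ⟨ν, inferInstance⟩ hν 0
  obtain ⟨j0, -⟩ := hfac (lam : Measure Z) inferInstance hlam
  have : Nonempty ι := ⟨j0⟩
  have hinv : ∀ j, MeasurePreserving σ (m j) (m j) := by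
    intro j
    have h := (hE j 1 one_pos).toMeasurePreserving
    rwa [Function.iterate_one] at h
  set β : ℝ := (ε / 2 / 4) ^ 2 / 4 with hβ
  have hβ0 : 0 < β := by rw [hβ]; positivity
  have hδ : 0 < (β / 6) ^ 2 := by positivity
  have hsq : Real.sqrt ((β / 6) ^ 2) = β / 6 := Real.sqrt_sq (by positivity)
  obtain ⟨j, F, hF2, hF0, hcov⟩ := fam hRc hσ m hm hinv f hf hδ
  have htot : ∀ a : Measure Z, IsProbabilityMeasure a → Ergodic R a → ∀ n, 0 < n → Ergodic R^[n] a := by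
    intro a ha hea n hn
    obtain ⟨j1, hj1⟩ := hfac a ha hea
    exact fac_erg (hinv j1) hj1 hRc.measurable (hE j1 n hn) hea.toMeasurePreserving
  obtain ⟨G, hGm, hGi, hGd, hG1, hG⟩ := cells hRc hσ htot f ((β / 6) ^ 2) (fun i => m (j i)) F
    (fun a ha hea => hcov a ha (hfac a ha hea) (hf0 a ha hea)) hν
  refine AP.assemble hRc hGm hGd hG1 f hf hε hβ0.le le_rfl ?_ hN hq hu
  intro i k
  obtain ⟨q0, hq0⟩ := hSJ (j i) (j k) (F i) (F k) (hF0 i) (hF0 k) (β / 4) (by positivity)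
  refine ⟨q0, fun p q hp hq' hpq hqp hqq ρ hρ1 hρ h1 h2 => ?_⟩
  have h := cell_pair hRc hσ hf (hF2 i) hp.pos hq'.pos (hE (j i) p hp.pos) (hE (j k) q hq'.pos) hδ.le
    (ε := β / 4) (by positivity) (hq0 p q hp hq' hpq hqp hqq) (hGm i) (hGm k) (hGi i) (hGi k)
    (hG i p hp.pos) (hG k q hq'.pos) ρ hρ h1 h2
  refine h.trans (mul_le_mul_of_nonneg_right ?_ ENNReal.toReal_nonneg)
  rw [hsq]
  linarith

theorem core {ι : Type} [Countable ι] {R : Z → Z} (hRc : Continuous R) {σ : Y → Y} (hσ : Continuous σ)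
    (m : ι → Measure Y) (hm : ∀ j, IsProbabilityMeasure (m j)) (hE : ∀ j n, 0 < n → Ergodic σ^[n] (m j))
    (hSJ : ∀ j k, ∀ F F' : C(Y, ℂ), ∫ y, F y ∂m j = 0 → ∫ y, F' y ∂m k = 0 → AQ.SJ2 (m j) σ (m k) σ F F')
    (hfac : ∀ a : Measure Z, IsProbabilityMeasure a → Ergodic R a → ∃ j, IsFac σ (m j) R a)
    (f : C(Z, ℂ)) (hf0 : ∀ a : Measure Z, IsProbabilityMeasure a → Ergodic R a → ∫ z, f z ∂a = 0) : HD.UnifOrth R f := by
  refine of_loc hRc f fun ν hν1 hν z N hN hq u hu ε hε => ?_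
  obtain ⟨C, hC⟩ : ∃ C : ℝ, ∀ z, ‖f z‖ ≤ C := ⟨‖f‖, fun z => f.norm_coe_le_norm z⟩
  have hc0 : 0 < 1 / (|C| + 1) := by positivity
  set c : ℝ := 1 / (|C| + 1) with hc
  have hf1 : ∀ z, ‖((c : ℂ) • f) z‖ ≤ 1 := by
    intro z
    rw [ContinuousMap.smul_apply, norm_smul, Complex.norm_real, Real.norm_of_nonneg hc0.le, hc,
      one_div, inv_mul_le_one₀ (by positivity)]
    linarith [hC z, le_abs_self C]
  have h := loc hRc hσ m hm hE hSJ hfac ((c : ℂ) • f) hf1 (fun a ha hea => by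
    have e : ∫ z, ((c : ℂ) • f) z ∂a = (c : ℂ) * ∫ z, f z ∂a :=
      (integral_congr_ae (Filter.Eventually.of_forall fun z => rfl)).trans (integral_const_mul (c : ℂ) fun z => f z)
    rw [e, hf0 a ha hea, mul_zero]) hν hN hq hu (ε := c * ε) (by positivity)
  filter_upwards [h] with i hi
  have e : ∑ n ∈ Icc 1 (N i), u n * ((c : ℂ) • f) (R^[n] (z i)) =
      (c : ℂ) * ∑ n ∈ Icc 1 (N i), u n * f (R^[n] (z i)) := by
    rw [Finset.mul_sum]
    refine Finset.sum_congr rfl fun n _ => ?_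
    rw [ContinuousMap.smul_apply, smul_eq_mul]
    ring
  rw [e, norm_mul, Complex.norm_real, Real.norm_of_nonneg hc0.le, mul_assoc] at hi
  exact le_of_mul_le_mul_left hi hc0

end Pool.Agent.Lib.MP_9fe581_an.AU
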