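import Pool.Agent.Lib.MP_9fe581_an.AP.QG
import Pool.Agent.Lib.MP_9fe581_an.AQ.Defs

/-!
# AU: topological systems whose ergodic measures are factors of countably many systems of the class: definitions
-/

set_option autoImplicit false

open Finset MeasureTheory Filter Topology ProbabilityTheory
open scoped ComplexConjugate ENNReal

namespace Pool.Agent.Lib.MP_9fe581_an.AU

variable {Z Y : Type} [MeasurableSpace Z] [MeasurableSpace Y]

/-- `J` is an invariant coupling of `(Z, a, R)` and `(Y, m, σ)` with `∫ ‖f - F‖² ≤ δ` -/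
structure Near (R : Z → Z) (σ : Y → Y) (m : Measure Y) (f : Z → ℂ) (F : Y → ℂ) (δ : ℝ) (a : Measure Z)
    (J : Measure (Z × Y)) : Prop where
  prob : IsProbabilityMeasure J
  inv : MeasurePreserving (Prod.map R σ) J J
  fst : J.map Prod.fst = a
  snd : J.map Prod.snd = m
  near : ∫ w, ‖f w.1 - F w.2‖ ^ 2 ∂J ≤ δ

/-- there is such a coupling -/
def Nb (R : Z → Z) (σ : Y → Y) (m : Measure Y) (f : Z → ℂ) (F : Y → ℂ) (δ : ℝ) (a : Measure Z) : Prop :=
  ∃ J : Measure (Z × Y), Near R σ m f F δ a J

/-- `(Z, a, R)` is a factor of `(X, μ, S)` -/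
def IsFac {X : Type} [MeasurableSpace X] (S : X → X) (μ : Measure X) (R : Z → Z) (a : Measure Z) : Prop :=
  ∃ φ : X → Z, MeasurePreserving φ μ a ∧ ∀ᵐ x ∂μ, φ (S x) = R (φ x)

/-- the conditional measures of `ν` given the `R`-invariant sets -/
noncomputable def kk [StandardBorelSpace Z] (R : Z → Z) (ν : Measure Z) [IsFiniteMeasure ν] (z : Z) : Measure Z :=
  condExpKernel ν (MeasurableSpace.invariants R) z

/-- the compact space of the models -/
abbrev YY : Type := ℤ → EReal

/-- the shift -/
def sh (y : YY) : YY := fun n => y (n + 1)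

end Pool.Agent.Lib.MP_9fe581_an.AU
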