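import Pool.Agent.Lib.MP_9fe581_an.AU.Defs

/-! # AU, Fam: a countable family near all factors

PROOF. `C(Y, ℂ)` is separable; let `H_k` be a dense sequence of the closed unit ball of `C(Y, ℂ)` (a subset of a separable metric space), and
enumerate the pairs `(j, k)` (`ι` countable nonempty); for the pair `(j, k)` take the function `F = H_k - ∫ H_k dm_j`, `‖F‖ <= 2`,
`∫ F dm_j = 0`.  Let `φ` be a factor map from `(Y, m_j, σ)` to `(Z, a, R)`, `h = f ∘ φ`, `|h| <= 1`, `∫ h dm_j = 0`.  Continuous functions are dense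
in `L²(m_j)`; composing with the projection onto the unit disc (it is 1-Lipschitz and fixes the values of `h`) gives a continuous `H`,
`|H| <= 1`, with `∫ |h - H|² dm_j` small, and then some `H_k` with `∫ |h - H_k|² dm_j <= δ`.  `∫ |h - H_k + ∫ H_k|² = ∫ |h - H_k|² - |∫ H_k|² <= δ`.
`J = m_j.map (fun y => (φ y, y))`: invariant (a.e. equality `φ ∘ σ = R ∘ φ`), marginals `a` and `m_j`. -/

set_option autoImplicit false

open Finset MeasureTheory Filter Topology ProbabilityTheory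
open scoped ComplexConjugate ENNReal

namespace Pool.Agent.Lib.MP_9fe581_an.AU

private noncomputable def pi1 (z : ℂ) : ℂ := ((max 1 ‖z‖)⁻¹ : ℝ) • z

private theorem pi1_cont : Continuous pi1 := by
  unfold pi1
  refine Continuous.smul (Continuous.inv₀ (continuous_const.max continuous_norm) ?_) continuous_id
  intro z
  have h : (0 : ℝ) < max 1 ‖z‖ := lt_of_lt_of_le one_pos (le_max_left _ _)
  exact h.ne'

private theorem pi1_norm (z : ℂ) : ‖pi1 z‖ ≤ 1 := by
  unfold pi1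
  have h : (0 : ℝ) < max 1 ‖z‖ := lt_of_lt_of_le one_pos (le_max_left _ _)
  rw [norm_smul, norm_inv, Real.norm_of_nonneg h.le, inv_mul_le_iff₀ h, mul_one]
  exact le_max_right _ _

private theorem pi1_dist {w : ℂ} (hw : ‖w‖ ≤ 1) (z : ℂ) : ‖w - pi1 z‖ ≤ 2 * ‖w - z‖ := by
  have h1 : ‖z - pi1 z‖ ≤ ‖w - z‖ := by
    unfold pi1
    by_cases h : ‖z‖ ≤ 1
    · rw [max_eq_left h, inv_one, one_smul, sub_self, norm_zero]
      exact norm_nonneg _
    · have h2 : 1 < ‖z‖ := not_le.1 h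
      have h0 : (0 : ℝ) < ‖z‖ := by linarith
      rw [max_eq_right h2.le]
      have h3 : z - (‖z‖⁻¹ : ℝ) • z = (1 - ‖z‖⁻¹ : ℝ) • z := by rw [sub_smul, one_smul]
      rw [h3, norm_smul]
      have h4 : (0 : ℝ) ≤ 1 - ‖z‖⁻¹ := by
        have := inv_le_one_of_one_le₀ h2.le
        linarith
      rw [Real.norm_of_nonneg h4]
      have h5 : (1 - ‖z‖⁻¹) * ‖z‖ = ‖z‖ - 1 := by
        field_simp
      rw [h5]
      have h6 : ‖z‖ - ‖w‖ ≤ ‖z - w‖ := norm_sub_norm_le z w
      rw [norm_sub_rev] at h6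
      linarith
  calc ‖w - pi1 z‖ = ‖(w - z) + (z - pi1 z)‖ := by congr 1; ring
    _ ≤ ‖w - z‖ + ‖z - pi1 z‖ := norm_add_le _ _
    _ ≤ 2 * ‖w - z‖ := by linarith

private theorem var_le {Ω : Type} [MeasurableSpace Ω] (μ : Measure Ω) [IsProbabilityMeasure μ] {u : Ω → ℂ} {C : ℝ}
    (hu : Measurable u) (hC : ∀ y, ‖u y‖ ≤ C) (c : ℂ) (hc : ∫ y, u y ∂μ = -c) :
    ∫ y, ‖u y + c‖ ^ 2 ∂μ ≤ ∫ y, ‖u y‖ ^ 2 ∂μ := by
  have hui : Integrable u μ := Integrable.of_bound hu.aestronglyMeasurable C (Eventually.of_forall hC)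
  have hu2 : Integrable (fun y => ‖u y‖ ^ 2) μ := by
    refine Integrable.of_bound (hu.norm.pow_const 2).aestronglyMeasurable (C ^ 2) (Eventually.of_forall fun y => ?_)
    rw [Real.norm_of_nonneg (by positivity)]
    exact pow_le_pow_left₀ (norm_nonneg _) (hC y) 2
  have h1 : ∀ y, ‖u y + c‖ ^ 2 = ‖u y‖ ^ 2 + (2 * (u y * (starRingEnd ℂ) c).re + ‖c‖ ^ 2) := by
    intro y
    rw [← Complex.normSq_eq_norm_sq, ← Complex.normSq_eq_norm_sq, ← Complex.normSq_eq_norm_sq, Complex.normSq_add]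
    ring
  have hi : Integrable (fun y => (u y * (starRingEnd ℂ) c).re) μ := (hui.mul_const _).re
  have h2 : ∫ y, (u y * (starRingEnd ℂ) c).re ∂μ = -‖c‖ ^ 2 := by
    have h3 : ∫ y, (u y * (starRingEnd ℂ) c).re ∂μ = (∫ y, u y * (starRingEnd ℂ) c ∂μ).re :=
      Complex.reCLM.integral_comp_comm (hui.mul_const _)
    rw [h3, integral_mul_const, hc, neg_mul, Complex.mul_conj, Complex.neg_re, Complex.ofReal_re, Complex.normSq_eq_norm_sq]
  have h4 : ∫ y, ‖u y + c‖ ^ 2 ∂μ = ∫ y, ‖u y‖ ^ 2 ∂μ + (2 * (-‖c‖ ^ 2) + ‖c‖ ^ 2) := by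
    have h5 : (fun y => ‖u y + c‖ ^ 2) = fun y => ‖u y‖ ^ 2 + (2 * (u y * (starRingEnd ℂ) c).re + ‖c‖ ^ 2) := funext h1
    have h6 : Integrable (fun y => 2 * (u y * (starRingEnd ℂ) c).re + ‖c‖ ^ 2) μ :=
      (hi.const_mul 2).add (integrable_const _)
    have h7 : ∫ y, (2 * (u y * (starRingEnd ℂ) c).re + ‖c‖ ^ 2) ∂μ = 2 * (-‖c‖ ^ 2) + ‖c‖ ^ 2 := by
      rw [integral_add (hi.const_mul 2) (integrable_const _), integral_const_mul, h2]
      simp
    rw [h5, integral_add hu2 h6, h7]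
  rw [h4]
  nlinarith [sq_nonneg ‖c‖]

variable {Z Y : Type} [TopologicalSpace Z] [CompactSpace Z] [TopologicalSpace.MetrizableSpace Z] [MeasurableSpace Z]
  [BorelSpace Z] [TopologicalSpace Y] [CompactSpace Y] [TopologicalSpace.MetrizableSpace Y] [MeasurableSpace Y] [BorelSpace Y]

theorem fam {ι : Type} [Countable ι] [Nonempty ι] {R : Z → Z} (hRc : Continuous R) {σ : Y → Y} (hσ : Continuous σ)
    (m : ι → Measure Y) (hm : ∀ j, IsProbabilityMeasure (m j)) (hinv : ∀ j, MeasurePreserving σ (m j) (m j))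
    (f : C(Z, ℂ)) (hf : ∀ z, ‖f z‖ ≤ 1) {δ : ℝ} (hδ : 0 < δ) :
    ∃ (j : ℕ → ι) (F : ℕ → C(Y, ℂ)), (∀ i y, ‖F i y‖ ≤ 2) ∧ (∀ i, ∫ y, F i y ∂m (j i) = 0) ∧
      ∀ a : Measure Z, IsProbabilityMeasure a → (∃ j0, IsFac σ (m j0) R a) → ∫ z, f z ∂a = 0 →
        ∃ i, Nb R σ (m (j i)) f (F i) δ a := by
  have hsc : SecondCountableTopology Y := by
    letI := TopologicalSpace.metrizableSpaceMetric Y
    infer_instance
  obtain ⟨e, he⟩ := exists_surjective_nat (ι × ℕ)
  let B : Type := {H : C(Y, ℂ) // ‖H‖ ≤ 1}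
  have hBne : Nonempty B := ⟨⟨0, by simp⟩⟩
  let dH : ℕ → B := TopologicalSpace.denseSeq B
  have hdH : ∀ k y, ‖(dH k).1 y‖ ≤ 1 := fun k y => ((dH k).1.norm_coe_le_norm y).trans (dH k).2
  let F : ℕ → C(Y, ℂ) := fun i => (dH (e i).2).1 - ContinuousMap.const Y (∫ y, (dH (e i).2).1 y ∂(m (e i).1))
  have hint : ∀ (k : ℕ) (j : ι), Integrable (fun y => (dH k).1 y) (m j) := by
    intro k j
    have := hm j
    exact Integrable.of_bound ((dH k).1.continuous.measurable.aestronglyMeasurable) 1 (Eventually.of_forall (hdH k))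
  refine ⟨fun i => (e i).1, F, ?_, ?_, ?_⟩
  · intro i y
    have := hm (e i).1
    have h1 : F i y = (dH (e i).2).1 y - ∫ y, (dH (e i).2).1 y ∂(m (e i).1) := rfl
    rw [h1]
    have h2 : ‖∫ y, (dH (e i).2).1 y ∂(m (e i).1)‖ ≤ 1 := by
      have h3 := norm_integral_le_of_norm_le_const (μ := m (e i).1) (Eventually.of_forall (hdH (e i).2))
      simpa using h3
    have h3 := norm_sub_le ((dH (e i).2).1 y) (∫ y, (dH (e i).2).1 y ∂(m (e i).1))
    have h4 := hdH (e i).2 y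
    linarith
  · intro i
    have := hm (e i).1
    have h1 : ∀ y, F i y = (dH (e i).2).1 y - ∫ y, (dH (e i).2).1 y ∂(m (e i).1) := fun y => rfl
    simp_rw [h1]
    rw [integral_sub (hint _ _) (integrable_const _), integral_const]
    simp
  · rintro a ha ⟨j0, φ, hφ, hφR⟩ hfa
    have hmj := hm j0
    have hhm : Measurable fun y => f (φ y) := f.continuous.measurable.comp hφ.measurable
    have hh1 : ∀ y, ‖f (φ y)‖ ≤ 1 := fun y => hf _
    have hhint : Integrable (fun y => f (φ y)) (m j0) :=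
      Integrable.of_bound hhm.aestronglyMeasurable 1 (Eventually.of_forall hh1)
    have hh0 : ∫ y, f (φ y) ∂(m j0) = 0 := by
      rw [← hfa, ← hφ.map_eq, integral_map hφ.measurable.aemeasurable f.continuous.measurable.aestronglyMeasurable]
    have hmem : MemLp (fun y => f (φ y)) (ENNReal.ofReal 2) (m j0) :=
      MemLp.of_bound hhm.aestronglyMeasurable 1 (Eventually.of_forall hh1)
    obtain ⟨g, hg, _⟩ := hmem.exists_boundedContinuous_integral_rpow_sub_le two_pos (ε := δ / 16) (by positivity)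
    have hg' : ∫ y, ‖f (φ y) - g y‖ ^ 2 ∂(m j0) ≤ δ / 16 := by
      refine le_trans (le_of_eq ?_) hg
      refine integral_congr_ae (Eventually.of_forall fun y => ?_)
      simp only
      rw [← Real.rpow_natCast]
      norm_num
    let H : C(Y, ℂ) := ⟨fun y => pi1 (g y), pi1_cont.comp g.continuous⟩
    have hH : ‖H‖ ≤ 1 := (ContinuousMap.norm_le _ zero_le_one).2 fun y => pi1_norm _
    have hsq : 0 < Real.sqrt δ / 2 := by positivity
    obtain ⟨k, hk⟩ := (TopologicalSpace.denseRange_denseSeq B).exists_dist_lt (⟨H, hH⟩ : B) hsq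
    have hk' : ∀ y, ‖H y - (dH k).1 y‖ ≤ Real.sqrt δ / 2 := by
      intro y
      have h1 : dist H (dH k).1 < Real.sqrt δ / 2 := hk
      have h2 := ContinuousMap.dist_apply_le_dist (f := H) (g := (dH k).1) y
      rw [dist_eq_norm] at h2
      exact h2.trans h1.le
    have hsm : ∀ y, ‖f (φ y) - (dH k).1 y‖ ^ 2 ≤ 8 * ‖f (φ y) - g y‖ ^ 2 + δ / 2 := by
      intro y
      have h1 : ‖f (φ y) - H y‖ ≤ 2 * ‖f (φ y) - g y‖ := pi1_dist (hh1 y) (g y)
      have h2 : ‖f (φ y) - (dH k).1 y‖ ≤ ‖f (φ y) - H y‖ + ‖H y - (dH k).1 y‖ := by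
        calc ‖f (φ y) - (dH k).1 y‖ = ‖(f (φ y) - H y) + (H y - (dH k).1 y)‖ := by congr 1; ring
          _ ≤ _ := norm_add_le _ _
      have h3 : ‖f (φ y) - (dH k).1 y‖ ≤ 2 * ‖f (φ y) - g y‖ + Real.sqrt δ / 2 := by
        have := hk' y
        linarith
      have h4 : ‖f (φ y) - (dH k).1 y‖ ^ 2 ≤ (2 * ‖f (φ y) - g y‖ + Real.sqrt δ / 2) ^ 2 :=
        pow_le_pow_left₀ (norm_nonneg _) h3 2
      have h5 : Real.sqrt δ ^ 2 = δ := Real.sq_sqrt hδ.le
      nlinarith [sq_nonneg (2 * ‖f (φ y) - g y‖ - Real.sqrt δ / 2)]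
    obtain ⟨C, hC⟩ : ∃ C, ∀ y, ‖g y‖ ≤ C := ⟨‖g‖, fun y => g.norm_coe_le_norm y⟩
    have hi1 : Integrable (fun y => ‖f (φ y) - g y‖ ^ 2) (m j0) := by
      refine Integrable.of_bound (((hhm.sub g.continuous.measurable).norm.pow_const 2).aestronglyMeasurable) ((1 + C) ^ 2)
        (Eventually.of_forall fun y => ?_)
      rw [Real.norm_of_nonneg (by positivity)]
      refine pow_le_pow_left₀ (norm_nonneg _) ?_ 2
      exact (norm_sub_le _ _).trans (add_le_add (hh1 y) (hC y))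
    have hum : Measurable fun y => f (φ y) - (dH k).1 y := hhm.sub (dH k).1.continuous.measurable
    have hub : ∀ y, ‖f (φ y) - (dH k).1 y‖ ≤ 2 := fun y =>
      (norm_sub_le _ _).trans (by have := hh1 y; have := hdH k y; linarith)
    have hi2 : Integrable (fun y => ‖f (φ y) - (dH k).1 y‖ ^ 2) (m j0) := by
      refine Integrable.of_bound ((hum.norm.pow_const 2).aestronglyMeasurable) (2 ^ 2) (Eventually.of_forall fun y => ?_)
      rw [Real.norm_of_nonneg (by positivity)]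
      exact pow_le_pow_left₀ (norm_nonneg _) (hub y) 2
    have hsm2 : ∫ y, ‖f (φ y) - (dH k).1 y‖ ^ 2 ∂(m j0) ≤ δ := by
      calc ∫ y, ‖f (φ y) - (dH k).1 y‖ ^ 2 ∂(m j0) ≤ ∫ y, (8 * ‖f (φ y) - g y‖ ^ 2 + δ / 2) ∂(m j0) :=
            integral_mono hi2 ((hi1.const_mul 8).add (integrable_const _)) hsm
        _ = 8 * ∫ y, ‖f (φ y) - g y‖ ^ 2 ∂(m j0) + δ / 2 := by
            rw [integral_add (hi1.const_mul 8) (integrable_const _), integral_const_mul]
            simp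
        _ ≤ δ := by linarith
    obtain ⟨i, hi⟩ := he (j0, k)
    refine ⟨i, ?_⟩
    have hi1' : (e i).1 = j0 := by rw [hi]
    have hFi : ∀ y, F i y = (dH k).1 y - ∫ y, (dH k).1 y ∂(m j0) := by
      intro y
      show (dH (e i).2).1 y - ∫ y, (dH (e i).2).1 y ∂(m (e i).1) = _
      rw [hi]
    have hnear : ∫ y, ‖f (φ y) - F i y‖ ^ 2 ∂(m j0) ≤ δ := by
      have h1 : ∀ y, f (φ y) - F i y = (f (φ y) - (dH k).1 y) + ∫ y, (dH k).1 y ∂(m j0) := by
        intro y
        rw [hFi]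
        ring
      simp_rw [h1]
      refine (var_le (m j0) hum hub _ ?_).trans hsm2
      rw [integral_sub hhint (hint k j0), hh0, zero_sub]
    have hgm : Measurable fun y => (φ y, y) := hφ.measurable.prodMk measurable_id
    simp only [hi1']
    refine ⟨(m j0).map (fun y => (φ y, y)), ?_⟩
    have hRσ : Measurable (Prod.map R σ) := hRc.measurable.prodMap hσ.measurable
    refine ⟨Measure.isProbabilityMeasure_map hgm.aemeasurable, ⟨hRσ, ?_⟩, ?_, ?_, ?_⟩
    · rw [Measure.map_map hRσ hgm]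
      have h1 : (Prod.map R σ ∘ fun y => (φ y, y)) =ᵐ[m j0] ((fun y => (φ y, y)) ∘ σ) := by
        filter_upwards [hφR] with y hy
        simp only [Function.comp_apply, Prod.map_apply, hy]
      rw [Measure.map_congr h1, ← Measure.map_map hgm hσ.measurable, (hinv j0).map_eq]
    · rw [Measure.map_map measurable_fst hgm]
      have h1 : (Prod.fst ∘ fun y : Y => (φ y, y)) = φ := rfl
      rw [h1, hφ.map_eq]
    · rw [Measure.map_map measurable_snd hgm]
      have h1 : (Prod.snd ∘ fun y : Y => (φ y, y)) = id := rfl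
      rw [h1, Measure.map_id]
    · have h2 : Measurable fun w : Z × Y => ‖f w.1 - F i w.2‖ ^ 2 :=
        ((f.continuous.measurable.comp measurable_fst).sub ((F i).continuous.measurable.comp measurable_snd)).norm.pow_const 2
      rw [integral_map hgm.aemeasurable h2.aestronglyMeasurable]
      exact hnear

end Pool.Agent.Lib.MP_9fe581_an.AU
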