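import Pool.Agent.Lib.MP_9fe581_an.AU.Top
import Pool.Agent.Lib.MP_9fe581_an.AQ.Fin
import Pool.Agent.Lib.MP_9fe581_an.AQ.ErgP

/-! # AU, Fin: theorem (D) for the intrinsic class -/

set_option autoImplicit false

open Finset MeasureTheory Filter Topology ProbabilityTheory
open scoped ComplexConjugate ENNReal

namespace Pool.Agent.Lib.MP_9fe581_an.AU

variable {Z : Type} [TopologicalSpace Z] [CompactSpace Z] [TopologicalSpace.MetrizableSpace Z] [MeasurableSpace Z] [BorelSpace Z]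

/-- **bounded multiplicative functions**: every ergodic measure is a factor of one of countably many systems of the class -/
theorem dst_bm {ι : Type} [Countable ι] {X : ι → Type} [∀ j, MeasurableSpace (X j)] [∀ j, StandardBorelSpace (X j)]
    {R : Z → Z} (hRc : Continuous R) (μ : ∀ j, Measure (X j)) (T : ∀ j, X j → X j) (hm : ∀ j, IsProbabilityMeasure (μ j))
    (hD : ∀ j, AQ.Dst (μ j) (T j)) (hK : ∀ j k, AQ.KR (μ j) (T j) (μ k) (T k))
    (hfac : ∀ a : Measure Z, IsProbabilityMeasure a → Ergodic R a → ∃ j, IsFac (T j) (μ j) R a)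
    (f : C(Z, ℂ)) (hf0 : ∀ a : Measure Z, IsProbabilityMeasure a → Ergodic R a → ∫ z, f z ∂a = 0) : HD.UnifOrth R f :=
  top_bm hRc μ T hm (fun j => (hD j).inv) (fun j _ hn => AQ.erg_pow (hD j) hn)
    (fun j k _ _ hF hF' h0 => AQ.sj2 (hD j) (hD k) (hK j k) hF h0 hF') hfac f hf0

/-- **Moebius disjointness** -/
theorem dst_moeb {ι : Type} [Countable ι] {X : ι → Type} [∀ j, MeasurableSpace (X j)] [∀ j, StandardBorelSpace (X j)]
    {R : Z → Z} (hRc : Continuous R) (μ : ∀ j, Measure (X j)) (T : ∀ j, X j → X j) (hm : ∀ j, IsProbabilityMeasure (μ j))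
    (hD : ∀ j, AQ.Dst (μ j) (T j)) (hK : ∀ j k, AQ.KR (μ j) (T j) (μ k) (T k))
    (hfac : ∀ a : Measure Z, IsProbabilityMeasure a → Ergodic R a → ∃ j, IsFac (T j) (μ j) R a) (f : C(Z, ℂ)) :
    TendstoUniformly (fun (N : ℕ) (z : Z) => (1 / (N : ℂ)) * ∑ k ∈ Finset.Icc 1 N,
      f (R^[k] z) * ((ArithmeticFunction.moebius k : ℤ) : ℂ)) (fun _ => 0) atTop :=
  mr hRc (fun g hg => dst_bm hRc μ T hm hD hK hfac g hg) f

end Pool.Agent.Lib.MP_9fe581_an.AU
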