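import Pool.Agent.Lib.MP_9fe581_an.AU.Defs

/-! # AU, Glue: gluing invariant couplings

PROOF of `avg_fix`. `a_0 ∈ K`; `a_n = (1/n) ∑_(k<n) Θ^k a_0` is in `K` (hconv, induction: `a_(n+1) = (n/(n+1)) a_n + (1/(n+1)) Θ^n a_0`); a
cluster point `a` in the compact `K` (ultrafilter) is invariant: `|∫ g ∘ Θ da_n - ∫ g da_n| <= 2 ‖g‖ / n` for continuous `g`, and a measure is
determined by the integrals of continuous functions.
PROOF of `glue0`. Disintegrate: `J1 = (J1.fst) ⊗ₘ J1.condKernel`, `J2` likewise (Measure.condKernel needs the second space standard Borel and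
nonempty), `Λ` = law of `(x, y)` with `x = (x1, x2)` distributed by `ρ` and `y1`, `y2` drawn independently by `J1.condKernel x1`,
`J2.condKernel x2`: `Λ = ρ ⊗ₘ ((J1.condKernel.comap Prod.fst) ×ₖ (J2.condKernel.comap Prod.snd))`.
PROOF of `glue`. `K` = the probability measures `Λ` on `(X1 × X2) × (Y1 × Y2)` with the three given images: closed (the images are
continuous in `Λ`, AP.qe_marg_closed), convex, nonempty (`glue0`), mapped into itself by `Θ = (a1 × a2) × (b1 × b2)` because `ρ`, `J1`, `J2` are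
invariant; `avg_fix`. -/

set_option autoImplicit false

open Finset MeasureTheory Filter Topology ProbabilityTheory
open scoped ComplexConjugate ENNReal

namespace Pool.Agent.Lib.MP_9fe581_an.AU

theorem glue0 {X1 X2 Y1 Y2 : Type} [MeasurableSpace X1] [MeasurableSpace X2] [MeasurableSpace Y1] [MeasurableSpace Y2]
    [StandardBorelSpace Y1] [StandardBorelSpace Y2] [Nonempty Y1] [Nonempty Y2]
    (ρ : Measure (X1 × X2)) [IsProbabilityMeasure ρ] (J1 : Measure (X1 × Y1)) [IsProbabilityMeasure J1]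
    (J2 : Measure (X2 × Y2)) [IsProbabilityMeasure J2] (h1 : J1.map Prod.fst = ρ.map Prod.fst)
    (h2 : J2.map Prod.fst = ρ.map Prod.snd) :
    ∃ Λ : Measure ((X1 × X2) × (Y1 × Y2)), IsProbabilityMeasure Λ ∧ Λ.map Prod.fst = ρ ∧
      Λ.map (fun w => (w.1.1, w.2.1)) = J1 ∧ Λ.map (fun w => (w.1.2, w.2.2)) = J2 := by
  set κ1 : Kernel (X1 × X2) Y1 := J1.condKernel.comap Prod.fst measurable_fst with hκ1
  set κ2 : Kernel (X1 × X2) Y2 := J2.condKernel.comap Prod.snd measurable_snd with hκ2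
  have hp1 : IsMarkovKernel κ1 := by rw [hκ1]; infer_instance
  have hp2 : IsMarkovKernel κ2 := by rw [hκ2]; infer_instance
  refine ⟨ρ ⊗ₘ (κ1 ×ₖ κ2), inferInstance, Measure.fst_compProd ρ (κ1 ×ₖ κ2), ?_, ?_⟩
  · have hF : Measurable fun w : (X1 × X2) × (Y1 × Y2) => (w.1.1, w.2.1) := by fun_prop
    ext s hs
    rw [Measure.map_apply hF hs, Measure.compProd_apply (hF hs)]
    have hd : (J1.fst ⊗ₘ J1.condKernel) s = J1 s := by rw [Measure.disintegrate]
    rw [← hd, Measure.compProd_apply hs, Measure.fst, h1, lintegral_map (Kernel.measurable_kernel_prodMk_left hs) measurable_fst]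
    refine lintegral_congr fun x => ?_
    rw [Kernel.prod_apply]
    have e : Prod.mk x ⁻¹' ((fun w : (X1 × X2) × (Y1 × Y2) => (w.1.1, w.2.1)) ⁻¹' s) =
        (Prod.mk x.1 ⁻¹' s) ×ˢ (Set.univ : Set Y2) := by
      ext y
      simp
    rw [e, Measure.prod_prod, measure_univ, mul_one]
    rfl
  · have hF : Measurable fun w : (X1 × X2) × (Y1 × Y2) => (w.1.2, w.2.2) := by fun_prop
    ext s hs
    rw [Measure.map_apply hF hs, Measure.compProd_apply (hF hs)]
    have hd : (J2.fst ⊗ₘ J2.condKernel) s = J2 s := by rw [Measure.disintegrate]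
    rw [← hd, Measure.compProd_apply hs, Measure.fst, h2, lintegral_map (Kernel.measurable_kernel_prodMk_left hs) measurable_snd]
    refine lintegral_congr fun x => ?_
    rw [Kernel.prod_apply]
    have e : Prod.mk x ⁻¹' ((fun w : (X1 × X2) × (Y1 × Y2) => (w.1.2, w.2.2)) ⁻¹' s) =
        (Set.univ : Set Y1) ×ˢ (Prod.mk x.2 ⁻¹' s) := by
      ext y
      simp
    rw [e, Measure.prod_prod, measure_univ, one_mul]
    rfl

end Pool.Agent.Lib.MP_9fe581_an.AU
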