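import Pool.Agent.Lib.MP_9fe581_an.AU.Glue

/-! # AU, Glue2: gluing invariant couplings (proof in words in Glue.lean) -/

set_option autoImplicit false

open Finset MeasureTheory Filter Topology ProbabilityTheory
open scoped ComplexConjugate ENNReal

namespace Pool.Agent.Lib.MP_9fe581_an.AU

variable {W : Type} [TopologicalSpace W] [CompactSpace W] [TopologicalSpace.MetrizableSpace W] [MeasurableSpace W] [BorelSpace W]

private noncomputable def gL (Φ : C(W, ℝ)) (μ : ProbabilityMeasure W) : ℝ := ∫ z, Φ z ∂(μ : Measure W)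

private theorem gL_cont (Φ : C(W, ℝ)) : Continuous (gL Φ) := by
  rw [continuous_iff_continuousAt]
  intro μ
  have h := ProbabilityMeasure.tendsto_iff_forall_integral_tendsto.mp (tendsto_id (α := ProbabilityMeasure W) (x := 𝓝 μ))
  exact h (BoundedContinuousFunction.mkOfCompact Φ)

private theorem gL_map {Θ : W → W} (hΘ : Continuous Θ) (Φ : C(W, ℝ)) (μ : ProbabilityMeasure W) :
    gL (Φ.comp ⟨Θ, hΘ⟩) μ = gL Φ (μ.map hΘ.measurable.aemeasurable) := by
  unfold gL
  exact (integral_map hΘ.measurable.aemeasurable Φ.continuous.measurable.aestronglyMeasurable).symm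

private theorem gL_comb (Φ : C(W, ℝ)) (a b d : ProbabilityMeasure W) (s t : ℝ≥0∞) (hs : s ≠ ∞) (ht : t ≠ ∞)
    (h : (d : Measure W) = s • (a : Measure W) + t • (b : Measure W)) :
    gL Φ d = s.toReal * gL Φ a + t.toReal * gL Φ b := by
  have hi : ∀ ν : ProbabilityMeasure W, Integrable (fun z => Φ z) (ν : Measure W) := by
    intro ν
    exact (BoundedContinuousFunction.mkOfCompact Φ).integrable _
  unfold gL
  rw [h, integral_add_measure ((hi a).smul_measure hs) ((hi b).smul_measure ht),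
    integral_smul_measure, integral_smul_measure, smul_eq_mul, smul_eq_mul]

/-- the images of `a0` under the powers of `Θ` -/
private noncomputable def gb {Θ : W → W} (hΘ : Continuous Θ) (a0 : ProbabilityMeasure W) : ℕ → ProbabilityMeasure W
  | 0 => a0
  | n + 1 => (gb hΘ a0 n).map hΘ.measurable.aemeasurable

/-- an invariant element of a closed convex invariant set of probability measures -/
theorem avg_fix {Θ : W → W} (hΘ : Continuous Θ) (K : Set (ProbabilityMeasure W)) (hK : IsClosed K) (hne : K.Nonempty)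
    (hconv : ∀ a ∈ K, ∀ b ∈ K, ∀ s t : ℝ≥0∞, s + t = 1 → ∀ d : ProbabilityMeasure W,
      (d : Measure W) = s • (a : Measure W) + t • (b : Measure W) → d ∈ K)
    (hmap : ∀ a ∈ K, a.map hΘ.measurable.aemeasurable ∈ K) :
    ∃ a ∈ K, MeasurePreserving Θ (a : Measure W) (a : Measure W) := by
  obtain ⟨a0, ha0⟩ := hne
  have hb : ∀ n, gb hΘ a0 n ∈ K := by
    intro n
    induction n with
    | zero => exact ha0
    | succ n ih => exact hmap _ ih
  have hseq : ∀ n : ℕ, ∃ a ∈ K, ∀ Φ : C(W, ℝ), ((n : ℝ) + 1) * gL Φ a = ∑ k ∈ range (n + 1), gL Φ (gb hΘ a0 k) := by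
    intro n
    induction n with
    | zero =>
      refine ⟨a0, ha0, fun Φ => ?_⟩
      rw [Nat.cast_zero, zero_add, one_mul, zero_add, sum_range_one]
      rfl
    | succ n ih =>
      obtain ⟨a, ha, hΦ⟩ := ih
      set s : ℝ≥0∞ := ENNReal.ofReal (((n : ℝ) + 1) / ((n : ℝ) + 2)) with hs
      set t : ℝ≥0∞ := ENNReal.ofReal (1 / ((n : ℝ) + 2)) with ht
      have hst : s + t = 1 := by
        rw [hs, ht, ← ENNReal.ofReal_add (by positivity) (by positivity), ← add_div]
        have : ((n : ℝ) + 1 + 1) / ((n : ℝ) + 2) = 1 := by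
          rw [div_eq_one_iff_eq (by positivity)]
          ring
        rw [this, ENNReal.ofReal_one]
      have hs' : s ≠ ∞ := ENNReal.ofReal_ne_top
      have ht' : t ≠ ∞ := ENNReal.ofReal_ne_top
      have hprob : IsProbabilityMeasure (s • (a : Measure W) + t • ((gb hΘ a0 (n + 1) : ProbabilityMeasure W) : Measure W)) := by
        refine ⟨?_⟩
        rw [Measure.add_apply, Measure.smul_apply, Measure.smul_apply, measure_univ, measure_univ, smul_eq_mul, smul_eq_mul,
          mul_one, mul_one, hst]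
      refine ⟨⟨_, hprob⟩, hconv a ha _ (hb (n + 1)) s t hst _ rfl, fun Φ => ?_⟩
      rw [gL_comb Φ a (gb hΘ a0 (n + 1)) _ s t hs' ht' rfl, hs, ht, ENNReal.toReal_ofReal (by positivity),
        ENNReal.toReal_ofReal (by positivity), sum_range_succ, ← hΦ Φ]
      push_cast
      have h2 : (n : ℝ) + 2 ≠ 0 := by positivity
      field_simp
      ring
  choose a haK haΦ using hseq
  have hU := hK.isCompact.ultrafilter_le_nhds ((hyperfilter ℕ).map a) (by
    rw [le_principal_iff]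
    exact Filter.Eventually.of_forall (f := (hyperfilter ℕ : Filter ℕ)) haK)
  obtain ⟨x, hxK, hx⟩ := hU
  have hx' : Tendsto a (hyperfilter ℕ : Filter ℕ) (𝓝 x) := hx
  refine ⟨x, hxK, hΘ.measurable, ?_⟩
  have hinv : ∀ Φ : C(W, ℝ), gL (Φ.comp ⟨Θ, hΘ⟩) x = gL Φ x := by
    intro Φ
    have h1 : Tendsto (fun n => gL (Φ.comp ⟨Θ, hΘ⟩) (a n) - gL Φ (a n)) (hyperfilter ℕ : Filter ℕ)
        (𝓝 (gL (Φ.comp ⟨Θ, hΘ⟩) x - gL Φ x)) :=
      (((gL_cont _).tendsto x).comp hx').sub (((gL_cont _).tendsto x).comp hx')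
    have h2 : Tendsto (fun n => gL (Φ.comp ⟨Θ, hΘ⟩) (a n) - gL Φ (a n)) atTop (𝓝 0) := by
      have h3 : ∀ n : ℕ, gL (Φ.comp ⟨Θ, hΘ⟩) (a n) - gL Φ (a n) =
          (gL Φ (gb hΘ a0 (n + 1)) - gL Φ (gb hΘ a0 0)) * (1 / ((n : ℝ) + 1)) := by
        intro n
        have h4 := haΦ n (Φ.comp ⟨Θ, hΘ⟩)
        have h5 := haΦ n Φ
        have h6 : ∑ k ∈ range (n + 1), gL (Φ.comp ⟨Θ, hΘ⟩) (gb hΘ a0 k) - ∑ k ∈ range (n + 1), gL Φ (gb hΘ a0 k) =
            gL Φ (gb hΘ a0 (n + 1)) - gL Φ (gb hΘ a0 0) := by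
          rw [← sum_sub_distrib]
          rw [← sum_range_sub (fun k => gL Φ (gb hΘ a0 k)) (n + 1)]
          apply sum_congr rfl
          intro k _
          rw [gL_map hΘ Φ]
          rfl
        rw [← h4, ← h5] at h6
        have h7 : (n : ℝ) + 1 ≠ 0 := by positivity
        rw [← h6]
        field_simp
      obtain ⟨C, hC⟩ : ∃ C : ℝ, ∀ μ : ProbabilityMeasure W, |gL Φ μ| ≤ C := by
        refine ⟨‖Φ‖, fun μ => ?_⟩
        unfold gL
        rw [← Real.norm_eq_abs]
        have h8 : ∀ᵐ z ∂(μ : Measure W), ‖Φ z‖ ≤ ‖Φ‖ := by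
          filter_upwards with z
          exact Φ.norm_coe_le_norm z
        have h9 := norm_integral_le_of_norm_le_const h8
        simpa using h9
      have h10 : Tendsto (fun n : ℕ => (C + C) * (1 / ((n : ℝ) + 1))) atTop (𝓝 0) := by
        have := (tendsto_one_div_add_atTop_nhds_zero_nat (𝕜 := ℝ)).const_mul (C + C)
        rwa [mul_zero] at this
      refine squeeze_zero_norm (fun n => ?_) h10
      rw [h3 n, norm_mul, Real.norm_eq_abs, Real.norm_of_nonneg (by positivity : (0 : ℝ) ≤ 1 / ((n : ℝ) + 1))]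
      apply mul_le_mul_of_nonneg_right _ (by positivity)
      exact (abs_sub _ _).trans (add_le_add (hC _) (hC _))
    have h3 := tendsto_nhds_unique h1 (h2.mono_left Nat.hyperfilter_le_atTop)
    linarith
  have hfm : IsFiniteMeasure (Measure.map Θ (x : Measure W)) := Measure.isFiniteMeasure_map _ _
  let _ : MetricSpace W := TopologicalSpace.metrizableSpaceMetric W
  refine ext_of_forall_integral_eq_of_IsFiniteMeasure fun g => ?_
  rw [integral_map hΘ.measurable.aemeasurable g.continuous.measurable.aestronglyMeasurable]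
  exact hinv g.toContinuousMap

private theorem g2_sc (X : Type) [TopologicalSpace X] [CompactSpace X] [TopologicalSpace.MetrizableSpace X] :
    SecondCountableTopology X := by
  let _ : MetricSpace X := TopologicalSpace.metrizableSpaceMetric X
  infer_instance

private theorem g2_sb (X : Type) [TopologicalSpace X] [CompactSpace X] [TopologicalSpace.MetrizableSpace X]
    [MeasurableSpace X] [BorelSpace X] : StandardBorelSpace X := by
  let _ : MetricSpace X := TopologicalSpace.metrizableSpaceMetric X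
  infer_instance

variable {X1 X2 Y1 Y2 : Type} [TopologicalSpace X1] [CompactSpace X1] [TopologicalSpace.MetrizableSpace X1]
  [MeasurableSpace X1] [BorelSpace X1] [TopologicalSpace X2] [CompactSpace X2] [TopologicalSpace.MetrizableSpace X2]
  [MeasurableSpace X2] [BorelSpace X2] [TopologicalSpace Y1] [CompactSpace Y1] [TopologicalSpace.MetrizableSpace Y1]
  [MeasurableSpace Y1] [BorelSpace Y1] [TopologicalSpace Y2] [CompactSpace Y2] [TopologicalSpace.MetrizableSpace Y2]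
  [MeasurableSpace Y2] [BorelSpace Y2]

theorem glue {a1 : X1 → X1} {a2 : X2 → X2} {b1 : Y1 → Y1} {b2 : Y2 → Y2} (ha1 : Continuous a1) (ha2 : Continuous a2)
    (hb1 : Continuous b1) (hb2 : Continuous b2) (ρ : Measure (X1 × X2)) [IsProbabilityMeasure ρ]
    (hρ : MeasurePreserving (Prod.map a1 a2) ρ ρ) (J1 : Measure (X1 × Y1)) [IsProbabilityMeasure J1]
    (hJ1 : MeasurePreserving (Prod.map a1 b1) J1 J1) (J2 : Measure (X2 × Y2)) [IsProbabilityMeasure J2]
    (hJ2 : MeasurePreserving (Prod.map a2 b2) J2 J2) (h1 : J1.map Prod.fst = ρ.map Prod.fst)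
    (h2 : J2.map Prod.fst = ρ.map Prod.snd) :
    ∃ Λ : Measure ((X1 × X2) × (Y1 × Y2)), IsProbabilityMeasure Λ ∧
      MeasurePreserving (Prod.map (Prod.map a1 a2) (Prod.map b1 b2)) Λ Λ ∧ Λ.map Prod.fst = ρ ∧
      Λ.map (fun w => (w.1.1, w.2.1)) = J1 ∧ Λ.map (fun w => (w.1.2, w.2.2)) = J2 := by
  have sX1 := g2_sc X1
  have sX2 := g2_sc X2
  have sY1 := g2_sc Y1
  have sY2 := g2_sc Y2
  have bY1 := g2_sb Y1
  have bY2 := g2_sb Y2
  have nJ1 : Nonempty (X1 × Y1) := nonempty_of_isProbabilityMeasure J1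
  have nJ2 : Nonempty (X2 × Y2) := nonempty_of_isProbabilityMeasure J2
  have nY1 : Nonempty Y1 := ⟨(Classical.choice nJ1).2⟩
  have nY2 : Nonempty Y2 := ⟨(Classical.choice nJ2).2⟩
  obtain ⟨Λ0, hΛ0, hΛ1, hΛ2, hΛ3⟩ := glue0 ρ J1 J2 h1 h2
  have hΘ : Continuous (Prod.map (Prod.map a1 a2) (Prod.map b1 b2)) := (ha1.prodMap ha2).prodMap (hb1.prodMap hb2)
  have c1 : Continuous (fun w : (X1 × X2) × (Y1 × Y2) => w.1) := continuous_fst
  have c2 : Continuous (fun w : (X1 × X2) × (Y1 × Y2) => (w.1.1, w.2.1)) := by fun_prop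
  have c3 : Continuous (fun w : (X1 × X2) × (Y1 × Y2) => (w.1.2, w.2.2)) := by fun_prop
  set K : Set (ProbabilityMeasure ((X1 × X2) × (Y1 × Y2))) :=
    {Λ : ProbabilityMeasure ((X1 × X2) × (Y1 × Y2)) |
      (Λ : Measure ((X1 × X2) × (Y1 × Y2))).map (fun w : (X1 × X2) × (Y1 × Y2) => w.1) = ρ} ∩
    ({Λ : ProbabilityMeasure ((X1 × X2) × (Y1 × Y2)) |
      (Λ : Measure ((X1 × X2) × (Y1 × Y2))).map (fun w : (X1 × X2) × (Y1 × Y2) => (w.1.1, w.2.1)) = J1} ∩
    {Λ : ProbabilityMeasure ((X1 × X2) × (Y1 × Y2)) |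
      (Λ : Measure ((X1 × X2) × (Y1 × Y2))).map (fun w : (X1 × X2) × (Y1 × Y2) => (w.1.2, w.2.2)) = J2}) with hK
  have hKc : IsClosed K := (AP.qe_marg_closed ρ _ c1).inter ((AP.qe_marg_closed J1 _ c2).inter (AP.qe_marg_closed J2 _ c3))
  have hKn : K.Nonempty := ⟨⟨Λ0, hΛ0⟩, hΛ1, hΛ2, hΛ3⟩
  obtain ⟨a, ⟨haK1, haK2, haK3⟩, ha⟩ := avg_fix hΘ K hKc hKn (by
    rintro a ⟨ha1, ha2, ha3⟩ b ⟨hb1, hb2, hb3⟩ s t hst d hd
    have hcomb : ∀ {V : Type} [MeasurableSpace V] (g : (X1 × X2) × (Y1 × Y2) → V) (ν : Measure V), Measurable g →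
        (a : Measure ((X1 × X2) × (Y1 × Y2))).map g = ν → (b : Measure ((X1 × X2) × (Y1 × Y2))).map g = ν → (d : Measure ((X1 × X2) × (Y1 × Y2))).map g = ν := by
      intro V _ g ν hg h1 h2
      rw [hd, Measure.map_add _ _ hg, Measure.map_smul, Measure.map_smul, h1, h2, ← add_smul, hst, one_smul]
    exact ⟨hcomb _ ρ c1.measurable ha1 hb1, hcomb _ J1 c2.measurable ha2 hb2, hcomb _ J2 c3.measurable ha3 hb3⟩) (by
    rintro a ⟨ka1, ka2, ka3⟩
    refine ⟨?_, ?_, ?_⟩
    · show ((a : Measure ((X1 × X2) × (Y1 × Y2))).map _).map (fun w : (X1 × X2) × (Y1 × Y2) => w.1) = ρ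
      rw [Measure.map_map c1.measurable hΘ.measurable]
      have e : (fun w : (X1 × X2) × (Y1 × Y2) => w.1) ∘ Prod.map (Prod.map a1 a2) (Prod.map b1 b2) =
          Prod.map a1 a2 ∘ fun w => w.1 := rfl
      rw [e, ← Measure.map_map (ha1.prodMap ha2).measurable c1.measurable]
      have k : (a : Measure ((X1 × X2) × (Y1 × Y2))).map (fun w : (X1 × X2) × (Y1 × Y2) => w.1) = ρ := ka1
      rw [k, hρ.map_eq]
    · show ((a : Measure ((X1 × X2) × (Y1 × Y2))).map _).map (fun w : (X1 × X2) × (Y1 × Y2) => (w.1.1, w.2.1)) = J1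
      rw [Measure.map_map c2.measurable hΘ.measurable]
      have e : (fun w : (X1 × X2) × (Y1 × Y2) => (w.1.1, w.2.1)) ∘ Prod.map (Prod.map a1 a2) (Prod.map b1 b2) =
          Prod.map a1 b1 ∘ fun w => (w.1.1, w.2.1) := rfl
      rw [e, ← Measure.map_map (ha1.prodMap hb1).measurable c2.measurable]
      have k : (a : Measure ((X1 × X2) × (Y1 × Y2))).map (fun w : (X1 × X2) × (Y1 × Y2) => (w.1.1, w.2.1)) = J1 := ka2
      rw [k, hJ1.map_eq]
    · show ((a : Measure ((X1 × X2) × (Y1 × Y2))).map _).map (fun w : (X1 × X2) × (Y1 × Y2) => (w.1.2, w.2.2)) = J2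
      rw [Measure.map_map c3.measurable hΘ.measurable]
      have e : (fun w : (X1 × X2) × (Y1 × Y2) => (w.1.2, w.2.2)) ∘ Prod.map (Prod.map a1 a2) (Prod.map b1 b2) =
          Prod.map a2 b2 ∘ fun w => (w.1.2, w.2.2) := rfl
      rw [e, ← Measure.map_map (ha2.prodMap hb2).measurable c3.measurable]
      have k : (a : Measure ((X1 × X2) × (Y1 × Y2))).map (fun w : (X1 × X2) × (Y1 × Y2) => (w.1.2, w.2.2)) = J2 := ka3
      rw [k, hJ2.map_eq])
  exact ⟨a, a.2, ha, haK1, haK2, haK3⟩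

end Pool.Agent.Lib.MP_9fe581_an.AU
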