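import Pool.Agent.Lib.MP_9fe581_an.AU.Defs

/-! # AU, Half: a closed convex set of probability measures is given by countably many inequalities

PROOF. For a finite family `g_1..g_r` of continuous functions the set `V = {(∫ g_i db)_i : b in A}` is compact (continuous image of
the compact set `A`; `ProbabilityMeasure Z` is compact) and convex (hc) in `Fin r → ℝ`.  Let `D = (g_n)_n` be a countable dense sequence
of `C(Z, ℝ)` (separable).  If the probability measure `a` is not in `A` then for some `r` the vector of `a` for `g_0..g_(r-1)` is not in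
`V_r`: otherwise the closed sets `{b in A : ∫ g_i db = ∫ g_i da for i < r}` are nonempty, decreasing in `r`, and have a common point `b`,
`∫ g db = ∫ g da` for all `g` of the dense sequence, hence for all `g`, hence `b = a`.  Separate the vector from `V_r` in `Fin r → ℝ`
(geometric_hahn_banach_closed_point or _compact_closed): there are `t` and `u` with `∑ t_i ∫ g_i db < u < ∑ t_i ∫ g_i da` for all `b in A`;
by density choose `g_n` with `‖g_n - ∑ t_i g_i‖` small and a rational `c`: `∫ g_n db <= c < ∫ g_n da`.  So the countable family of all pairs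
`(g_n, c)`, `c` rational, with `∫ g_n db <= c` for all `b in A` does it (enumerate; the family is nonempty: `(g_n, c)`, `c >= ‖g_n‖`).
(If `A` is empty the argument works as well, all pairs are in the family.) -/

set_option autoImplicit false

open Finset MeasureTheory Filter Topology ProbabilityTheory
open scoped ComplexConjugate ENNReal

namespace Pool.Agent.Lib.MP_9fe581_an.AU

variable {Z : Type} [TopologicalSpace Z] [CompactSpace Z] [TopologicalSpace.MetrizableSpace Z] [MeasurableSpace Z] [BorelSpace Z]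

private theorem half_int (g : C(Z, ℝ)) (a : ProbabilityMeasure Z) : Integrable g (a : Measure Z) :=
  g.continuous.integrable_of_hasCompactSupport (HasCompactSupport.of_compactSpace _)

private theorem half_near (g h : C(Z, ℝ)) (a : ProbabilityMeasure Z) :
    |∫ z, g z ∂(a : Measure Z) - ∫ z, h z ∂(a : Measure Z)| ≤ ‖g - h‖ := by
  rw [← integral_sub (half_int g a) (half_int h a)]
  have h1 := norm_integral_le_of_norm_le_const (μ := (a : Measure Z)) (f := fun z => g z - h z) (C := ‖g - h‖)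
    (Eventually.of_forall fun z => (g - h).norm_coe_le_norm z)
  simpa using h1

/-- a point off `A` is separated from `A` by a continuous function -/
private theorem half_sep (A : Set (ProbabilityMeasure Z)) (hA : IsClosed A)
    (hc : ∀ a ∈ A, ∀ b ∈ A, ∀ s t : ℝ≥0∞, s + t = 1 → ∀ d : ProbabilityMeasure Z,
      (d : Measure Z) = s • (a : Measure Z) + t • (b : Measure Z) → d ∈ A)
    (a : ProbabilityMeasure Z) (ha : a ∉ A) :
    ∃ (G : C(Z, ℝ)) (u : ℝ), (∀ b ∈ A, ∫ z, G z ∂(b : Measure Z) < u) ∧ u < ∫ z, G z ∂(a : Measure Z) := by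
  classical
  set l : Filter (ProbabilityMeasure Z) := ⨅ g : C(Z, ℝ),
    comap (fun b : ProbabilityMeasure Z => ∫ z, g z ∂(b : Measure Z)) (𝓝 (∫ z, g z ∂(a : Measure Z))) with hl
  have h1 : Tendsto (fun b : ProbabilityMeasure Z => b) l (𝓝 a) := by
    rw [ProbabilityMeasure.tendsto_iff_forall_integral_tendsto]
    intro f
    have h2 : l ≤ comap (fun b : ProbabilityMeasure Z => ∫ z, f.toContinuousMap z ∂(b : Measure Z))
        (𝓝 (∫ z, f.toContinuousMap z ∂(a : Measure Z))) := iInf_le _ f.toContinuousMap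
    exact tendsto_comap.mono_left h2
  have h2 : Aᶜ ∈ l := h1 (hA.isOpen_compl.mem_nhds ha)
  rw [hl, mem_iInf_finite] at h2
  obtain ⟨t, ht⟩ := h2
  rw [mem_iInf_finset] at ht
  obtain ⟨p, hp, hpe⟩ := ht
  set Φ : ProbabilityMeasure Z → (t → ℝ) := fun b g => ∫ z, (g : C(Z, ℝ)) z ∂(b : Measure Z) with hΦ
  have h3 : Φ a ∉ closure (Φ '' A) := by
    have h4 : ∀ g ∈ t, ∃ V ∈ 𝓝 (∫ z, g z ∂(a : Measure Z)),
        (fun b : ProbabilityMeasure Z => ∫ z, g z ∂(b : Measure Z)) ⁻¹' V ⊆ p g := fun g hg => mem_comap.1 (hp g hg)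
    choose! V hV hVp using h4
    intro h5
    rw [mem_closure_iff_nhds] at h5
    obtain ⟨x, hx1, b, hb, rfl⟩ := h5 (Set.pi Set.univ fun g : t => V g)
      (set_pi_mem_nhds Set.finite_univ fun g _ => hV g g.2)
    have h6 : b ∈ Aᶜ := by
      rw [hpe, Set.mem_iInter₂]
      exact fun g hg => hVp g hg (hx1 ⟨g, hg⟩ (Set.mem_univ _))
    exact h6 hb
  have h4 : Convex ℝ (Φ '' A) := by
    rintro _ ⟨b, hb, rfl⟩ _ ⟨b', hb', rfl⟩ s s' hs hs' hss
    have hst : ENNReal.ofReal s + ENNReal.ofReal s' = 1 := by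
      rw [← ENNReal.ofReal_add hs hs', hss, ENNReal.ofReal_one]
    have hpm : IsProbabilityMeasure (ENNReal.ofReal s • (b : Measure Z) + ENNReal.ofReal s' • (b' : Measure Z)) := by
      refine ⟨?_⟩
      rw [Measure.add_apply, Measure.smul_apply, Measure.smul_apply, measure_univ, measure_univ, smul_eq_mul,
        smul_eq_mul, mul_one, mul_one, hst]
    refine ⟨⟨_, hpm⟩, hc b hb b' hb' _ _ hst _ rfl, ?_⟩
    funext g
    show ∫ z, (g : C(Z, ℝ)) z ∂(ENNReal.ofReal s • (b : Measure Z) + ENNReal.ofReal s' • (b' : Measure Z)) =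
      s * ∫ z, (g : C(Z, ℝ)) z ∂(b : Measure Z) + s' * ∫ z, (g : C(Z, ℝ)) z ∂(b' : Measure Z)
    rw [integral_add_measure ((half_int _ b).smul_measure ENNReal.ofReal_ne_top)
      ((half_int _ b').smul_measure ENNReal.ofReal_ne_top), integral_smul_measure, integral_smul_measure,
      ENNReal.toReal_ofReal hs, ENNReal.toReal_ofReal hs', smul_eq_mul, smul_eq_mul]
  obtain ⟨f, u, hf1, hf2⟩ := geometric_hahn_banach_closed_point h4.closure isClosed_closure h3
  have h5 : ∀ b : ProbabilityMeasure Z,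
      ∫ z, (∑ g : t, f (fun j => if g = j then 1 else 0) • (g : C(Z, ℝ))) z ∂(b : Measure Z) = f (Φ b) := by
    intro b
    have e1 := LinearMap.pi_apply_eq_sum_univ (f : (t → ℝ) →ₗ[ℝ] ℝ) (Φ b)
    have e2 : f (Φ b) = ∑ g : t, Φ b g • f (fun j => if g = j then 1 else 0) := e1
    rw [e2]
    have e3 : ∀ z, (∑ g : t, f (fun j => if g = j then 1 else 0) • (g : C(Z, ℝ))) z =
        ∑ g : t, f (fun j => if g = j then 1 else 0) * (g : C(Z, ℝ)) z := by
      intro z
      rw [ContinuousMap.sum_apply]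
      rfl
    simp_rw [e3]
    rw [integral_finsetSum Finset.univ fun (g : t) _ => (half_int (g : C(Z, ℝ)) b).const_mul _]
    refine Finset.sum_congr rfl fun g _ => ?_
    rw [integral_const_mul, smul_eq_mul, mul_comm]
  refine ⟨∑ g : t, f (fun j => if g = j then 1 else 0) • (g : C(Z, ℝ)), u, fun b hb => ?_, ?_⟩
  · rw [h5]
    exact hf1 _ (subset_closure ⟨b, hb, rfl⟩)
  · rw [h5]
    exact hf2

theorem half (A : Set (ProbabilityMeasure Z)) (hA : IsClosed A)
    (hc : ∀ a ∈ A, ∀ b ∈ A, ∀ s t : ℝ≥0∞, s + t = 1 → ∀ d : ProbabilityMeasure Z,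
      (d : Measure Z) = s • (a : Measure Z) + t • (b : Measure Z) → d ∈ A) :
    ∃ (g : ℕ → C(Z, ℝ)) (c : ℕ → ℝ), ∀ a : ProbabilityMeasure Z, a ∈ A ↔ ∀ i, ∫ z, g i z ∂(a : Measure Z) ≤ c i := by
  classical
  have : SecondCountableTopology Z := by
    let _ := TopologicalSpace.metrizableSpaceMetric Z
    infer_instance
  let D : ℕ → C(Z, ℝ) := TopologicalSpace.denseSeq C(Z, ℝ)
  have hD : DenseRange D := TopologicalSpace.denseRange_denseSeq C(Z, ℝ)
  have hle : ∀ (g : C(Z, ℝ)) (b : ProbabilityMeasure Z), ∫ z, g z ∂(b : Measure Z) ≤ ‖g‖ := by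
    intro g b
    have h1 := half_near g 0 b
    simp only [ContinuousMap.zero_apply, integral_zero, sub_zero] at h1
    exact (le_abs_self _).trans h1
  obtain ⟨q0, hq0⟩ := exists_rat_gt ‖D 0‖
  have hne : Nonempty {x : ℕ × ℚ // ∀ b ∈ A, ∫ z, D x.1 z ∂(b : Measure Z) ≤ (x.2 : ℝ)} :=
    ⟨⟨(0, q0), fun b _ => (hle _ b).trans hq0.le⟩⟩
  obtain ⟨F, hF⟩ := exists_surjective_nat {x : ℕ × ℚ // ∀ b ∈ A, ∫ z, D x.1 z ∂(b : Measure Z) ≤ (x.2 : ℝ)}
  refine ⟨fun i => D (F i).1.1, fun i => ((F i).1.2 : ℝ), fun a => ⟨fun ha i => (F i).2 a ha, fun h => ?_⟩⟩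
  by_contra ha
  obtain ⟨G, u, h1, h2⟩ := half_sep A hA hc a ha
  set η : ℝ := (∫ z, G z ∂(a : Measure Z) - u) / 3 with hη
  have hη0 : 0 < η := by
    rw [hη]
    linarith
  obtain ⟨n, hn⟩ := hD.exists_dist_lt G hη0
  rw [dist_eq_norm] at hn
  obtain ⟨c, hc1, hc2⟩ := exists_rat_btwn (show u + η < ∫ z, G z ∂(a : Measure Z) - η by rw [hη]; linarith)
  have h3 : ∀ b ∈ A, ∫ z, D n z ∂(b : Measure Z) ≤ (c : ℝ) := by
    intro b hb
    have h4 := (abs_le.1 ((half_near G (D n) b).trans hn.le)).1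
    have h5 := h1 b hb
    linarith
  obtain ⟨i, hi⟩ := hF ⟨(n, c), h3⟩
  have h4 := h i
  simp only [hi] at h4
  have h5 := (abs_le.1 ((half_near G (D n) a).trans hn.le)).2
  linarith

end Pool.Agent.Lib.MP_9fe581_an.AU
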