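import Pool.Agent.Lib.MP_9fe581_an.AU.Defs
import Pool.Agent.Lib.MP_e4ee3e_an.X02

/-! # AU, KerA: the conditional measures given the invariant sets

`kk R ν z = condExpKernel ν (MeasurableSpace.invariants R) z`.
PROOF. `ker_meas`: measurable_condExpKernel, StronglyMeasurable.integral_condExpKernel.  `ker_int`: `condExp_ae_eq_integral_condExpKernel`,
the pull-out property (`w` is measurable for the invariant sets) and `integral_condExp`.  `ker_null`: `∫ kk z (s) dν = ν s` (for a measurable
superset of measure `0`).  `ker_const`: for bounded `h`, `∫ (h y - h z)^2 d(kk z)(y) = E(h²|I) - 2 h E(h|I) + h² = 0` for almost every `z`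
(condExp_ae_eq_integral_condExpKernel, condExp of a function measurable for the invariant sets). -/

set_option autoImplicit false

open Finset MeasureTheory Filter Topology ProbabilityTheory
open scoped ComplexConjugate ENNReal

namespace Pool.Agent.Lib.MP_9fe581_an.AU

variable {Z : Type} [MeasurableSpace Z] [StandardBorelSpace Z] [Nonempty Z] {R : Z → Z} {ν : Measure Z} [IsProbabilityMeasure ν]

theorem ker_prob (R : Z → Z) (ν : Measure Z) [IsProbabilityMeasure ν] (z : Z) : IsProbabilityMeasure (kk R ν z) := by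
  unfold kk
  infer_instance

/-- measurability for the invariant sets -/
theorem ker_meas {h : Z → ℝ} (hh : Measurable h) (hb : ∃ C, ∀ z, ‖h z‖ ≤ C) :
    Measurable[MeasurableSpace.invariants R] fun z => ∫ y, h y ∂kk R ν z := by
  have h1 : StronglyMeasurable h := hh.stronglyMeasurable
  exact (h1.integral_condExpKernel (μ := ν) (m := MeasurableSpace.invariants R)).measurable

theorem ker_int {h : Z → ℝ} (hh : Measurable h) (hb : ∃ C, ∀ z, ‖h z‖ ≤ C) {w : Z → ℝ}
    (hw : Measurable[MeasurableSpace.invariants R] w) (hwb : ∃ C, ∀ z, ‖w z‖ ≤ C) :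
    ∫ z, w z * ∫ y, h y ∂kk R ν z ∂ν = ∫ z, w z * h z ∂ν := by
  have hm := MeasurableSpace.invariants_le R
  obtain ⟨C, hC⟩ := hb
  obtain ⟨D, hD⟩ := hwb
  have hi : Integrable h ν := Integrable.of_bound hh.aestronglyMeasurable C (Eventually.of_forall hC)
  have hwi : Integrable (w * h) ν :=
    hi.bdd_mul (hw.mono hm le_rfl).aestronglyMeasurable (Eventually.of_forall hD)
  have h1 := condExp_ae_eq_integral_condExpKernel hm hi
  have h2 := condExp_mul_of_stronglyMeasurable_left (m := MeasurableSpace.invariants R) hw.stronglyMeasurable hwi hi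
  have h3 : ∫ z, (ν[w * h|MeasurableSpace.invariants R]) z ∂ν = ∫ z, (w * h) z ∂ν := integral_condExp hm
  have h4 : ∫ z, w z * ∫ y, h y ∂kk R ν z ∂ν = ∫ z, (ν[w * h|MeasurableSpace.invariants R]) z ∂ν := by
    refine integral_congr_ae ?_
    filter_upwards [h1, h2] with z e1 e2
    rw [e2, Pi.mul_apply, e1]
    rfl
  rw [h4, h3]
  rfl

/-- a null set is null for almost every conditional measure -/
theorem ker_null {s : Set Z} (hs : ν s = 0) : ∀ᵐ z ∂ν, kk R ν z s = 0 :=
  MP_e4ee3e_an.condKernel_null R hs

/-- functions measurable for the invariant sets are constant for the conditional measures -/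
theorem ker_const {h : Z → ℝ} (hh : Measurable[MeasurableSpace.invariants R] h) (hb : ∃ C, ∀ z, ‖h z‖ ≤ C) :
    ∀ᵐ z ∂ν, ∀ᵐ y ∂kk R ν z, h y = h z := by
  have h1 : Measurable h := hh.mono (MeasurableSpace.invariants_le R) le_rfl
  have h2 : ∀ y, h (R y) = h y := fun y => congrFun (MeasurableSpace.comp_eq_of_measurable_invariants hh) y
  exact MP_e4ee3e_an.condKernel_const h h1 h2

end Pool.Agent.Lib.MP_9fe581_an.AU
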