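import Pool.Agent.Lib.MP_9fe581_an.AU.Defs
import Pool.Agent.Lib.MP_9fe581_an.AP.QC4
import Pool.Agent.Lib.MP_9fe581_an.HD.Moeb

/-! # AU, MR: from mean zero functions to all functions, for the Moebius function -/

set_option autoImplicit false

open Finset MeasureTheory Filter Topology ProbabilityTheory
open scoped ComplexConjugate ENNReal

namespace Pool.Agent.Lib.MP_9fe581_an.AU

variable {Z : Type} [TopologicalSpace Z] [CompactSpace Z] [TopologicalSpace.MetrizableSpace Z] [MeasurableSpace Z] [BorelSpace Z]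

theorem mr {R : Z → Z} (hRc : Continuous R)
    (h : ∀ g : C(Z, ℂ), (∀ a : Measure Z, IsProbabilityMeasure a → Ergodic R a → ∫ z, g z ∂a = 0) → HD.UnifOrth R g)
    (f : C(Z, ℂ)) :
    TendstoUniformly (fun (N : ℕ) (z : Z) => (1 / (N : ℂ)) * ∑ k ∈ Finset.Icc 1 N,
      f (R^[k] z) * ((ArithmeticFunction.moebius k : ℤ) : ℂ)) (fun _ => 0) atTop := by
  have hinst : ∀ j : {a : Measure Z // IsProbabilityMeasure a ∧ Ergodic R a}, IsProbabilityMeasure j.1 := fun j => j.2.1
  rw [Metric.tendstoUniformly_iff]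
  intro ε hε
  have key := AP.qc4 (R := R) hRc (ι := {a : Measure Z // IsProbabilityMeasure a ∧ Ergodic R a}) (I := ℕ × Z)
    (ν := fun j => j.1) (fun j => j.2.2.toMeasurePreserving) (l := atTop.comap Prod.fst) (z := fun i => i.2)
    (N := fun i => i.1) tendsto_comap (by
      intro g hg hg0 η hη
      obtain ⟨N0, hN0⟩ := h ⟨g, hg⟩ (fun a ha hE => hg0 ⟨a, ha, hE⟩) _ HD.moeb_bmult η hη
      have h1 : ∀ᶠ i : ℕ × Z in atTop.comap Prod.fst, N0 ≤ i.1 :=
        (eventually_ge_atTop N0).comap Prod.fst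
      filter_upwards [h1] with i hi
      exact hN0 i.1 hi i.2) (f := f) f.continuous (ε / 2) (half_pos hε)
  rw [Filter.eventually_comap] at key
  filter_upwards [key, eventually_ge_atTop 1] with N hN hN1 z
  have h1 := hN (N, z) rfl
  have hNr : (0 : ℝ) < N := by exact_mod_cast hN1
  rw [dist_comm, dist_zero_right, norm_mul, norm_div, norm_one, Complex.norm_natCast]
  have h2 : ‖∑ k ∈ Finset.Icc 1 N, f (R^[k] z) * ((ArithmeticFunction.moebius k : ℤ) : ℂ)‖ ≤ ε / 2 * N := by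
    have e : ∑ k ∈ Finset.Icc 1 N, f (R^[k] z) * ((ArithmeticFunction.moebius k : ℤ) : ℂ) =
        ∑ n ∈ Finset.Icc 1 N, ((ArithmeticFunction.moebius n : ℤ) : ℂ) * f (R^[n] z) :=
      Finset.sum_congr rfl fun k _ => mul_comm _ _
    rw [e]
    exact h1
  calc 1 / (N : ℝ) * ‖∑ k ∈ Finset.Icc 1 N, f (R^[k] z) * ((ArithmeticFunction.moebius k : ℤ) : ℂ)‖
      ≤ 1 / (N : ℝ) * (ε / 2 * N) := mul_le_mul_of_nonneg_left h2 (by positivity)
    _ = ε / 2 := by field_simp
    _ < ε := half_lt_self hε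

end Pool.Agent.Lib.MP_9fe581_an.AU
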