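import Pool.Agent.Lib.MP_9fe581_an.AU.Defs

/-! # AU, Model: compact models

`YY = ℤ → EReal` with the shift `sh`.
PROOF of `model`. `e : X → ℝ` a measurable embedding (exists_measurableEmbedding_real), composed with `ℝ → EReal`.  `Ψ x n = e (S^n x)` for
`n >= 0` and `e (S'^(-n) x)` for `n < 0`, `S'` the inverse of `S`.  Injective (coordinate `0`), measurable, so a measurable embedding
(`Measurable.measurableEmbedding` for an injective measurable map between standard Borel spaces).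
PROOF of `model_fac`, `model_erg`, `model_sj`. `Ψ` has a measurable left inverse `Θ : YY → X` (MeasurableEmbedding.exists_measurable_extend or
`measurable_invFun`; `X` is nonempty), `Ψ ∘ Θ = id` `μ.map Ψ`-almost everywhere, `Θ ∘ sh = S ∘ Θ` almost everywhere.  Factor maps: `φ ∘ Θ`.
Joinings: `lam.map (Prod.map Θ Θ')` is an ergodic joining of `S^p`, `S'^q` (AP.m1_erg), `∫ F(y) conj F'(y') dlam = ∫ (F ∘ Ψ)(x) conj (F' ∘ Ψ')(x')`
over the image, because `y = Ψ (Θ y)` almost everywhere (the marginals of `lam` are `μ.map Ψ`, `μ'.map Ψ'`). -/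

set_option autoImplicit false

open Finset MeasureTheory Filter Topology ProbabilityTheory
open scoped ComplexConjugate ENNReal

namespace Pool.Agent.Lib.MP_9fe581_an.AU

theorem sh_cont : Continuous sh := by
  exact continuous_pi fun n => continuous_apply (n + 1)

variable {X X' : Type} [MeasurableSpace X] [MeasurableSpace X']

theorem model [StandardBorelSpace X] {S : X → X} (hS : Measurable S)
    (hinv : ∃ S' : X → X, Measurable S' ∧ (∀ x, S (S' x) = x) ∧ ∀ x, S' (S x) = x) :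
    ∃ Ψ : X → YY, MeasurableEmbedding Ψ ∧ ∀ x, Ψ (S x) = sh (Ψ x) := by
  obtain ⟨S', hS', h1, h2⟩ := hinv
  set E : Equiv.Perm X := ⟨S, S', h2, h1⟩ with hE
  have he := measurableEmbedding_embeddingReal X
  have hm : ∀ n : ℤ, Measurable fun x : X => (E ^ n) x := by
    intro n
    rcases n with m | m
    · have e1 : (fun x : X => (E ^ (Int.ofNat m)) x) = S^[m] := by
        funext x
        rw [Int.ofNat_eq_natCast, zpow_natCast, ← Equiv.Perm.iterate_eq_pow]
        rfl
      rw [e1]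
      exact hS.iterate m
    · have e1 : (fun x : X => (E ^ (Int.negSucc m)) x) = S'^[m + 1] := by
        funext x
        rw [zpow_negSucc, ← inv_pow, ← Equiv.Perm.iterate_eq_pow]
        rfl
      rw [e1]
      exact hS'.iterate (m + 1)
  refine ⟨fun x n => ((embeddingReal X ((E ^ n) x) : ℝ) : EReal), ?_, ?_⟩
  · refine Measurable.measurableEmbedding ?_ ?_
    · exact measurable_pi_lambda _ fun n => measurable_coe_real_ereal.comp (he.measurable.comp (hm n))
    · intro x x' hx
      have h3 := congrFun hx 0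
      simp only [zpow_zero, Equiv.Perm.coe_one, id_eq, EReal.coe_eq_coe_iff] at h3
      exact he.injective h3
  · intro x
    funext n
    show ((embeddingReal X ((E ^ n) (S x)) : ℝ) : EReal) = ((embeddingReal X ((E ^ (n + 1)) x) : ℝ) : EReal)
    rw [zpow_add_one]
    rfl

private theorem model_semi {S : X → X} {Ψ : X → YY} (hS : ∀ x, Ψ (S x) = sh (Ψ x)) (n : ℕ) (x : X) :
    Ψ (S^[n] x) = sh^[n] (Ψ x) := by
  have h : Function.Semiconj Ψ S sh := hS
  exact h.iterate_right n x

theorem model_erg {μ : Measure X} [IsProbabilityMeasure μ] {S : X → X} {Ψ : X → YY} (hΨ : MeasurableEmbedding Ψ)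
    (hS : ∀ x, Ψ (S x) = sh (Ψ x)) {n : ℕ} (h : Ergodic S^[n] μ) : Ergodic sh^[n] (μ.map Ψ) := by
  exact AP.m1_erg hΨ.measurable (sh_cont.measurable.iterate n) h (Eventually.of_forall (model_semi hS n))

theorem model_fac {Z : Type} [MeasurableSpace Z] {μ : Measure X} [IsProbabilityMeasure μ] {S : X → X} {Ψ : X → YY}
    (hΨ : MeasurableEmbedding Ψ) (hS : ∀ x, Ψ (S x) = sh (Ψ x)) (hSm : MeasurePreserving S μ μ) {R : Z → Z} (hR : Measurable R)
    {a : Measure Z} (h : IsFac S μ R a) : IsFac sh (μ.map Ψ) R a := by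
  have hne : Nonempty X := by
    by_contra hn
    rw [not_nonempty_iff] at hn
    have h1 := measure_univ (μ := μ)
    rw [Set.univ_eq_empty_iff.2 hn, measure_empty] at h1
    exact zero_ne_one h1
  obtain ⟨φ, hφ, hφ2⟩ := h
  have hl := hΨ.leftInverse_invFun
  refine ⟨φ ∘ hΨ.invFun, ⟨hφ.measurable.comp hΨ.measurable_invFun, ?_⟩, ?_⟩
  · rw [Measure.map_map (hφ.measurable.comp hΨ.measurable_invFun) hΨ.measurable, Function.comp_assoc,
      hl.comp_eq_id, Function.comp_id, hφ.map_eq]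
  · rw [hΨ.ae_map_iff]
    filter_upwards [hφ2] with x hx
    show φ (hΨ.invFun (sh (Ψ x))) = R (φ (hΨ.invFun (Ψ x)))
    rw [← hS x, hl, hl, hx]

private theorem model_inv {μ : Measure X} {S : X → X} {Ψ : X → YY} [Nonempty X] (hΨ : MeasurableEmbedding Ψ)
    (hS : ∀ x, Ψ (S x) = sh (Ψ x)) (n : ℕ) :
    (∀ᵐ y ∂(μ.map Ψ), hΨ.invFun (sh^[n] y) = S^[n] (hΨ.invFun y)) ∧
      (∀ᵐ y ∂(μ.map Ψ), Ψ (hΨ.invFun y) = y) ∧ (μ.map Ψ).map hΨ.invFun = μ := by
  have hl := hΨ.leftInverse_invFun
  refine ⟨?_, ?_, ?_⟩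
  · rw [hΨ.ae_map_iff]
    refine Eventually.of_forall fun x => ?_
    rw [← model_semi hS n x, hl, hl]
  · rw [hΨ.ae_map_iff]
    refine Eventually.of_forall fun x => ?_
    rw [hl]
  · rw [Measure.map_map hΨ.measurable_invFun hΨ.measurable, hl.comp_eq_id, Measure.map_id]

theorem model_sj {μ : Measure X} [IsProbabilityMeasure μ] {S : X → X} (hSm : MeasurePreserving S μ μ) {Ψ : X → YY}
    (hΨ : MeasurableEmbedding Ψ) (hS : ∀ x, Ψ (S x) = sh (Ψ x)) {μ' : Measure X'} [IsProbabilityMeasure μ'] {S' : X' → X'}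
    (hSm' : MeasurePreserving S' μ' μ') {Ψ' : X' → YY} (hΨ' : MeasurableEmbedding Ψ') (hS' : ∀ x, Ψ' (S' x) = sh (Ψ' x))
    {F F' : YY → ℂ} (hF : Measurable F) (hF' : Measurable F')
    (h : AQ.SJ2 μ S μ' S' (fun x => F (Ψ x)) fun x => F' (Ψ' x)) : AQ.SJ2 (μ.map Ψ) sh (μ'.map Ψ') sh F F' := by
  have hne : Nonempty X := by
    by_contra hn
    rw [not_nonempty_iff] at hn
    have h1 := measure_univ (μ := μ)
    rw [Set.univ_eq_empty_iff.2 hn, measure_empty] at h1
    exact zero_ne_one h1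
  have hne' : Nonempty X' := by
    by_contra hn
    rw [not_nonempty_iff] at hn
    have h1 := measure_univ (μ := μ')
    rw [Set.univ_eq_empty_iff.2 hn, measure_empty] at h1
    exact zero_ne_one h1
  intro ε hε
  obtain ⟨q0, hq0⟩ := h ε hε
  refine ⟨q0, fun p q pp qp hne hp hq lam h1 h2 h3 h4 => ?_⟩
  obtain ⟨a1, a2, a3⟩ := model_inv (μ := μ) hΨ hS p
  obtain ⟨b1, b2, b3⟩ := model_inv (μ := μ') hΨ' hS' q
  have q1 : MeasurePreserving Prod.fst lam (μ.map Ψ) := ⟨measurable_fst, h3⟩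
  have q2 : MeasurePreserving Prod.snd lam (μ'.map Ψ') := ⟨measurable_snd, h4⟩
  have hT := hΨ.measurable_invFun
  have hT' := hΨ'.measurable_invFun
  have hm : Measurable (Prod.map hΨ.invFun hΨ'.invFun) := hT.prodMap hT'
  have e0 : ∀ᵐ z ∂lam, Prod.map hΨ.invFun hΨ'.invFun (Prod.map sh^[p] sh^[q] z) =
      Prod.map S^[p] S'^[q] (Prod.map hΨ.invFun hΨ'.invFun z) := by
    filter_upwards [q1.quasiMeasurePreserving.ae a1, q2.quasiMeasurePreserving.ae b1] with z c1 c2
    exact Prod.ext c1 c2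
  have e1 := AP.m1_erg hm ((hSm.measurable.iterate p).prodMap (hSm'.measurable.iterate q)) h2 e0
  have e2 : IsProbabilityMeasure (lam.map (Prod.map hΨ.invFun hΨ'.invFun)) :=
    Measure.isProbabilityMeasure_map hm.aemeasurable
  have e3 : (lam.map (Prod.map hΨ.invFun hΨ'.invFun)).map Prod.fst = μ := by
    rw [Measure.map_map measurable_fst hm]
    have e : Prod.fst ∘ Prod.map hΨ.invFun hΨ'.invFun = hΨ.invFun ∘ Prod.fst := rfl
    rw [e, ← Measure.map_map hT measurable_fst, h3, a3]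
  have e4 : (lam.map (Prod.map hΨ.invFun hΨ'.invFun)).map Prod.snd = μ' := by
    rw [Measure.map_map measurable_snd hm]
    have e : Prod.snd ∘ Prod.map hΨ.invFun hΨ'.invFun = hΨ'.invFun ∘ Prod.snd := rfl
    rw [e, ← Measure.map_map hT' measurable_snd, h4, b3]
  have e5 := hq0 p q pp qp hne hp hq _ e2 e1 e3 e4
  have e6 := integral_map (μ := lam) (φ := Prod.map hΨ.invFun hΨ'.invFun)
    (f := fun z : X × X' => F (Ψ z.1) * conj (F' (Ψ' z.2))) hm.aemeasurable
    (((hF.comp hΨ.measurable).comp measurable_fst).mul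
      (Complex.continuous_conj.measurable.comp ((hF'.comp hΨ'.measurable).comp measurable_snd))).aestronglyMeasurable
  rw [e6] at e5
  refine le_trans (le_of_eq ?_) e5
  congr 1
  refine integral_congr_ae ?_
  filter_upwards [q1.quasiMeasurePreserving.ae a2, q2.quasiMeasurePreserving.ae b2] with z c1 c2
  show F z.1 * conj (F' z.2) = F (Ψ (hΨ.invFun z.1)) * conj (F' (Ψ' (hΨ'.invFun z.2)))
  rw [c1, c2]

end Pool.Agent.Lib.MP_9fe581_an.AU
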