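import Pool.Agent.Lib.MP_9fe581_an.AU.Core
import Pool.Agent.Lib.MP_9fe581_an.AU.Model
import Pool.Agent.Lib.MP_9fe581_an.AU.MR

/-! # AU, Top: the theorem -/

set_option autoImplicit false

open Finset MeasureTheory Filter Topology ProbabilityTheory
open scoped ComplexConjugate ENNReal

namespace Pool.Agent.Lib.MP_9fe581_an.AU

variable {Z : Type} [TopologicalSpace Z] [CompactSpace Z] [TopologicalSpace.MetrizableSpace Z] [MeasurableSpace Z] [BorelSpace Z]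

theorem top_bm {ι : Type} [Countable ι] {X : ι → Type} [∀ j, MeasurableSpace (X j)] [∀ j, StandardBorelSpace (X j)]
    {R : Z → Z} (hRc : Continuous R) (μ : ∀ j, Measure (X j)) (S : ∀ j, X j → X j) (hm : ∀ j, IsProbabilityMeasure (μ j))
    (hinv : ∀ j, ∃ S' : X j → X j, Measurable S' ∧ (∀ x, S j (S' x) = x) ∧ ∀ x, S' (S j x) = x)
    (hE : ∀ j n, 0 < n → Ergodic (S j)^[n] (μ j))
    (hSJ : ∀ j k, ∀ (F : X j → ℂ) (F' : X k → ℂ), AP.Bd F → AP.Bd F' → ∫ x, F x ∂μ j = 0 →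
      AQ.SJ2 (μ j) (S j) (μ k) (S k) F F')
    (hfac : ∀ a : Measure Z, IsProbabilityMeasure a → Ergodic R a → ∃ j, IsFac (S j) (μ j) R a)
    (f : C(Z, ℂ)) (hf0 : ∀ a : Measure Z, IsProbabilityMeasure a → Ergodic R a → ∫ z, f z ∂a = 0) : HD.UnifOrth R f := by
  have hE1 : ∀ j, Ergodic (S j) (μ j) := fun j => hE j 1 one_pos
  have hS : ∀ j, MeasurePreserving (S j) (μ j) (μ j) := fun j => (hE1 j).toMeasurePreserving
  have hM := fun j => model (X := X j) (hS j).measurable (hinv j)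
  choose Ψ hΨ hΨS using hM
  have hp : ∀ j, IsProbabilityMeasure ((μ j).map (Ψ j)) := fun j =>
    Measure.isProbabilityMeasure_map (hΨ j).measurable.aemeasurable
  refine core (Y := YY) (σ := sh) hRc sh_cont (fun j => (μ j).map (Ψ j)) hp
    (fun j n hn => model_erg (hΨ j) (hΨS j) (hE j n hn)) ?_ ?_ f hf0
  · intro j k F F' hF hF'
    refine model_sj (hS j) (hΨ j) (hΨS j) (hS k) (hΨ k) (hΨS k) F.continuous.measurable F'.continuous.measurable ?_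
    refine hSJ j k _ _ ?_ ?_ ?_
    · obtain ⟨C, hC⟩ : ∃ C, ∀ y, ‖F y‖ ≤ C := ⟨‖F‖, F.norm_coe_le_norm⟩
      exact ⟨F.continuous.measurable.comp (hΨ j).measurable, C, fun x => hC _⟩
    · obtain ⟨C, hC⟩ : ∃ C, ∀ y, ‖F' y‖ ≤ C := ⟨‖F'‖, F'.norm_coe_le_norm⟩
      exact ⟨F'.continuous.measurable.comp (hΨ k).measurable, C, fun x => hC _⟩
    · rw [← hF, (hΨ j).integral_map]
  · intro a ha hEa
    obtain ⟨j, hj⟩ := hfac a ha hEa
    exact ⟨j, model_fac (hΨ j) (hΨS j) (hS j) hRc.measurable hj⟩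

theorem top_moeb {ι : Type} [Countable ι] {X : ι → Type} [∀ j, MeasurableSpace (X j)] [∀ j, StandardBorelSpace (X j)]
    {R : Z → Z} (hRc : Continuous R) (μ : ∀ j, Measure (X j)) (S : ∀ j, X j → X j) (hm : ∀ j, IsProbabilityMeasure (μ j))
    (hinv : ∀ j, ∃ S' : X j → X j, Measurable S' ∧ (∀ x, S j (S' x) = x) ∧ ∀ x, S' (S j x) = x)
    (hE : ∀ j n, 0 < n → Ergodic (S j)^[n] (μ j))
    (hSJ : ∀ j k, ∀ (F : X j → ℂ) (F' : X k → ℂ), AP.Bd F → AP.Bd F' → ∫ x, F x ∂μ j = 0 →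
      AQ.SJ2 (μ j) (S j) (μ k) (S k) F F')
    (hfac : ∀ a : Measure Z, IsProbabilityMeasure a → Ergodic R a → ∃ j, IsFac (S j) (μ j) R a) (f : C(Z, ℂ)) :
    TendstoUniformly (fun (N : ℕ) (z : Z) => (1 / (N : ℂ)) * ∑ k ∈ Finset.Icc 1 N,
      f (R^[k] z) * ((ArithmeticFunction.moebius k : ℤ) : ℂ)) (fun _ => 0) atTop :=
  mr hRc (fun g hg => top_bm hRc μ S hm hinv hE hSJ hfac g hg) f

end Pool.Agent.Lib.MP_9fe581_an.AU
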