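import Pool.Agent.Lib.MP_9fe581_an.AU.CoreR
import Pool.Agent.Lib.MP_9fe581_an.AU.Model
import Pool.Agent.Lib.MP_9fe581_an.AV.Mr
import Pool.Agent.Lib.MP_9fe581_an.HD.Moeb
import Pool.Agent.Lib.MP_9fe581_an.AQ.Fin
import Pool.Agent.Lib.MP_9fe581_an.AQ.ErgP

/-! # AU, TopR: theorem (D) for a power of the map -/

set_option autoImplicit false

open Finset MeasureTheory Filter Topology ProbabilityTheory
open scoped ComplexConjugate ENNReal

namespace Pool.Agent.Lib.MP_9fe581_an.AU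

variable {Z : Type} [TopologicalSpace Z] [CompactSpace Z] [TopologicalSpace.MetrizableSpace Z] [MeasurableSpace Z] [BorelSpace Z]

theorem mr_r {r : ℕ} (hr : 0 < r) {R : Z → Z} (hRc : Continuous R)
    (h : ∀ g : C(Z, ℂ), (∀ a : Measure Z, IsProbabilityMeasure a → Ergodic R^[r] a → ∫ z, g z ∂a = 0) → HD.UnifOrth R g)
    (f : C(Z, ℂ)) :
    TendstoUniformly (fun (N : ℕ) (z : Z) => (1 / (N : ℂ)) * ∑ k ∈ Finset.Icc 1 N,
      f (R^[k] z) * ((ArithmeticFunction.moebius k : ℤ) : ℂ)) (fun _ => 0) atTop := by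
  have hinst : ∀ j : {a : Measure Z // IsProbabilityMeasure a ∧ Ergodic R^[r] a}, IsProbabilityMeasure j.1 := fun j => j.2.1
  rw [Metric.tendstoUniformly_iff]
  intro ε hε
  have key := AV.mr_moeb hr (R := R) hRc (ι := {a : Measure Z // IsProbabilityMeasure a ∧ Ergodic R^[r] a}) (I := ℕ × Z)
    (ν := fun j => j.1) (fun j => j.2.2.toMeasurePreserving) (l := atTop.comap Prod.fst) (z := fun i => i.2)
    (N := fun i => i.1) tendsto_comap (by
      intro g hg hg0 η hη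
      obtain ⟨N0, hN0⟩ := h ⟨g, hg⟩ (fun a ha hE => hg0 ⟨a, ha, hE⟩) _ HD.moeb_bmult η hη
      have h1 : ∀ᶠ i : ℕ × Z in atTop.comap Prod.fst, N0 ≤ i.1 :=
        (eventually_ge_atTop N0).comap Prod.fst
      filter_upwards [h1] with i hi
      exact hN0 i.1 hi i.2) (f := f) f.continuous (ε / 2) (half_pos hε)
  rw [Filter.eventually_comap] at key
  filter_upwards [key, eventually_ge_atTop 1] with N hN hN1 z
  have h1 := hN (N, z) rfl
  have hNr : (0 : ℝ) < N := by exact_mod_cast hN1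
  rw [dist_comm, dist_zero_right, norm_mul, norm_div, norm_one, Complex.norm_natCast]
  have h2 : ‖∑ k ∈ Finset.Icc 1 N, f (R^[k] z) * ((ArithmeticFunction.moebius k : ℤ) : ℂ)‖ ≤ ε / 2 * N := by
    have e : ∑ k ∈ Finset.Icc 1 N, f (R^[k] z) * ((ArithmeticFunction.moebius k : ℤ) : ℂ) =
        ∑ n ∈ Finset.Icc 1 N, ((ArithmeticFunction.moebius n : ℤ) : ℂ) * f (R^[n] z) :=
      Finset.sum_congr rfl fun k _ => mul_comm _ _
    rw [e]
    exact h1
  calc 1 / (N : ℝ) * ‖∑ k ∈ Finset.Icc 1 N, f (R^[k] z) * ((ArithmeticFunction.moebius k : ℤ) : ℂ)‖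
      ≤ 1 / (N : ℝ) * (ε / 2 * N) := mul_le_mul_of_nonneg_left h2 (by positivity)
    _ = ε / 2 := by field_simp
    _ < ε := half_lt_self hε

theorem top_bm_r {r : ℕ} {ι : Type} [Countable ι] {X : ι → Type} [∀ j, MeasurableSpace (X j)] [∀ j, StandardBorelSpace (X j)]
    {R : Z → Z} (hRc : Continuous R) (μ : ∀ j, Measure (X j)) (S : ∀ j, X j → X j) (hm : ∀ j, IsProbabilityMeasure (μ j))
    (hinv : ∀ j, ∃ S' : X j → X j, Measurable S' ∧ (∀ x, S j (S' x) = x) ∧ ∀ x, S' (S j x) = x)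
    (hE : ∀ j n, 0 < n → Ergodic (S j)^[n] (μ j))
    (hSJ : ∀ j k, ∀ (F : X j → ℂ) (F' : X k → ℂ), AP.Bd F → AP.Bd F' → ∫ x, F x ∂μ j = 0 →
      AQ.SJ2 (μ j) (S j) (μ k) (S k) F F')
    (hfac : ∀ a : Measure Z, IsProbabilityMeasure a → Ergodic R^[r] a → ∃ j, IsFac (S j) (μ j) R^[r] a)
    (f : C(Z, ℂ)) (hf0 : ∀ a : Measure Z, IsProbabilityMeasure a → Ergodic R^[r] a → ∫ z, f z ∂a = 0) :
    HD.UnifOrth R f := by
  have hE1 : ∀ j, Ergodic (S j) (μ j) := fun j => hE j 1 one_pos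
  have hS : ∀ j, MeasurePreserving (S j) (μ j) (μ j) := fun j => (hE1 j).toMeasurePreserving
  have hM := fun j => model (X := X j) (hS j).measurable (hinv j)
  choose Ψ hΨ hΨS using hM
  have hp : ∀ j, IsProbabilityMeasure ((μ j).map (Ψ j)) := fun j =>
    Measure.isProbabilityMeasure_map (hΨ j).measurable.aemeasurable
  refine core_r (r := r) (Y := YY) (σ := sh) hRc sh_cont (fun j => (μ j).map (Ψ j)) hp
    (fun j n hn => model_erg (hΨ j) (hΨS j) (hE j n hn)) ?_ ?_ f hf0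
  · intro j k F F' hF hF'
    refine model_sj (hS j) (hΨ j) (hΨS j) (hS k) (hΨ k) (hΨS k) F.continuous.measurable F'.continuous.measurable ?_
    refine hSJ j k _ _ ?_ ?_ ?_
    · obtain ⟨C, hC⟩ : ∃ C, ∀ y, ‖F y‖ ≤ C := ⟨‖F‖, F.norm_coe_le_norm⟩
      exact ⟨F.continuous.measurable.comp (hΨ j).measurable, C, fun x => hC _⟩
    · obtain ⟨C, hC⟩ : ∃ C, ∀ y, ‖F' y‖ ≤ C := ⟨‖F'‖, F'.norm_coe_le_norm⟩
      exact ⟨F'.continuous.measurable.comp (hΨ k).measurable, C, fun x => hC _⟩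
    · rw [← hF, (hΨ j).integral_map]
  · intro a ha hEa
    obtain ⟨j, hj⟩ := hfac a ha hEa
    exact ⟨j, model_fac (hΨ j) (hΨS j) (hS j) (hRc.iterate r).measurable hj⟩

/-- **bounded multiplicative functions**: every ergodic measure of `R^[r]` is a factor of one of countably many systems of
the class -/
theorem dst_bm_r {r : ℕ} {ι : Type} [Countable ι] {X : ι → Type} [∀ j, MeasurableSpace (X j)] [∀ j, StandardBorelSpace (X j)]
    {R : Z → Z} (hRc : Continuous R) (μ : ∀ j, Measure (X j)) (T : ∀ j, X j → X j) (hm : ∀ j, IsProbabilityMeasure (μ j))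
    (hD : ∀ j, AQ.Dst (μ j) (T j)) (hK : ∀ j k, AQ.KR (μ j) (T j) (μ k) (T k))
    (hfac : ∀ a : Measure Z, IsProbabilityMeasure a → Ergodic R^[r] a → ∃ j, IsFac (T j) (μ j) R^[r] a)
    (f : C(Z, ℂ)) (hf0 : ∀ a : Measure Z, IsProbabilityMeasure a → Ergodic R^[r] a → ∫ z, f z ∂a = 0) :
    HD.UnifOrth R f :=
  top_bm_r hRc μ T hm (fun j => (hD j).inv) (fun j _ hn => AQ.erg_pow (hD j) hn)
    (fun j k _ _ hF hF' h0 => AQ.sj2 (hD j) (hD k) (hK j k) hF h0 hF') hfac f hf0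

/-- **Moebius disjointness** -/
theorem dst_moeb_r {r : ℕ} (hr : 0 < r) {ι : Type} [Countable ι] {X : ι → Type} [∀ j, MeasurableSpace (X j)]
    [∀ j, StandardBorelSpace (X j)] {R : Z → Z} (hRc : Continuous R) (μ : ∀ j, Measure (X j)) (T : ∀ j, X j → X j)
    (hm : ∀ j, IsProbabilityMeasure (μ j)) (hD : ∀ j, AQ.Dst (μ j) (T j))
    (hK : ∀ j k, AQ.KR (μ j) (T j) (μ k) (T k))
    (hfac : ∀ a : Measure Z, IsProbabilityMeasure a → Ergodic R^[r] a → ∃ j, IsFac (T j) (μ j) R^[r] a) (f : C(Z, ℂ)) :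
    TendstoUniformly (fun (N : ℕ) (z : Z) => (1 / (N : ℂ)) * ∑ k ∈ Finset.Icc 1 N,
      f (R^[k] z) * ((ArithmeticFunction.moebius k : ℤ) : ℂ)) (fun _ => 0) atTop :=
  mr_r hr hRc (fun g hg => dst_bm_r hRc μ T hm hD hK hfac g hg) f

end Pool.Agent.Lib.MP_9fe581_an.AU
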